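import Mathlib

set_option autoImplicit false

namespace Pool.Agent.Helper372.Fence

open Set

/-- distance to the nearest multiple of `P` -/
noncomputable def tri (P z : ℝ) : ℝ := ‖(z : AddCircle P)‖

theorem tri_lip (P s t : ℝ) : |tri P s - tri P t| ≤ |s - t| := by
  unfold tri
  calc |‖(s : AddCircle P)‖ - ‖(t : AddCircle P)‖| ≤ ‖(s : AddCircle P) - (t : AddCircle P)‖ :=
        abs_norm_sub_norm_le _ _
    _ = ‖((s - t : ℝ) : AddCircle P)‖ := by rw [AddCircle.coe_sub]
    _ ≤ ‖s - t‖ := QuotientAddGroup.norm_mk_le_norm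
    _ = |s - t| := Real.norm_eq_abs _

theorem tri_add (P z : ℝ) (k : ℤ) : tri P (z + P * k) = tri P z := by
  unfold tri
  congr 1
  rw [AddCircle.coe_add]
  have : ((P * k : ℝ) : AddCircle P) = 0 := by
    rw [AddCircle.coe_eq_zero_iff]
    exact ⟨k, by rw [zsmul_eq_mul, mul_comm]⟩
  rw [this, add_zero]

theorem tri_small (P z : ℝ) (hP : 0 < P) (hz : |z| ≤ P / 2) : tri P z = |z| := by
  unfold tri
  exact (AddCircle.norm_coe_eq_abs_iff P hP.ne').mpr (by rwa [abs_of_pos hP])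

/-- the trajectories: unit speed agents `inl j`, and two helpers of speed `u` -/
noncomputable def traj (u m N : ℕ) : Fin N ⊕ Bool → ℝ → ℝ
  | .inl j, t => j.val * ((u : ℝ) / (u + 1)) - tri (2 * (u * m)) (t + j.val / (u + 1))
  | .inr false, t => u * tri (2 * (u * m)) t
  | .inr true, t => u * tri (2 * (u * m)) (t - (u - 1) * m)

/-- the speeds -/
def speed (u N : ℕ) : Fin N ⊕ Bool → ℝ
  | .inl _ => 1
  | .inr _ => u

theorem traj_lip (u m N : ℕ) (i : Fin N ⊕ Bool) (s t : ℝ) :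
    |traj u m N i s - traj u m N i t| ≤ speed u N i * |s - t| := by
  rcases i with j | (_ | _)
  · simp only [traj, speed, one_mul]
    have := tri_lip (2 * (u * m)) (t + j.val / (u + 1)) (s + j.val / (u + 1))
    rw [show (t + j.val / ((u : ℝ) + 1)) - (s + j.val / (u + 1)) = -(s - t) by ring, abs_neg] at this
    rw [show (j.val * ((u : ℝ) / (u + 1)) - tri (2 * (u * m)) (s + j.val / (u + 1)) -
      (j.val * ((u : ℝ) / (u + 1)) - tri (2 * (u * m)) (t + j.val / (u + 1)))) =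
      tri (2 * (u * m)) (t + j.val / (u + 1)) - tri (2 * (u * m)) (s + j.val / (u + 1)) by ring]
    exact this
  · simp only [traj, speed]
    rw [← mul_sub, abs_mul, abs_of_nonneg (Nat.cast_nonneg u)]
    exact mul_le_mul_of_nonneg_left (tri_lip _ _ _) (Nat.cast_nonneg u)
  · simp only [traj, speed]
    rw [← mul_sub, abs_mul, abs_of_nonneg (Nat.cast_nonneg u)]
    have := tri_lip (2 * (u * m)) (s - (u - 1) * m) (t - (u - 1) * m)
    rw [show (s - ((u : ℝ) - 1) * m) - (t - (u - 1) * m) = s - t by ring] at this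
    exact mul_le_mul_of_nonneg_left this (Nat.cast_nonneg u)

theorem speed_pos {u : ℕ} (hu : 2 ≤ u) (N : ℕ) (i : Fin N ⊕ Bool) : 0 < speed u N i := by
  rcases i with j | b
  · simp only [speed]; exact one_pos
  · simp only [speed]
    have : (0 : ℝ) < u := by positivity
    exact this

section
variable {u m : ℕ} (hu : 2 ≤ u) (hm : 1 ≤ m)

include hu hm

theorem visit_h1 (N : ℕ) {x : ℝ} (hx : x ∈ Icc (0 : ℝ) (u ^ 2 * m)) (k : ℤ) :
    traj u m N (.inr false) (-x / u + 2 * (u * m) * k) = x := by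
  have hu0 : (0 : ℝ) < u := by positivity
  have hm0 : (0 : ℝ) < m := by positivity
  simp only [traj]
  rw [tri_add, tri_small _ _ (by positivity)]
  · rw [neg_div, abs_neg, abs_of_nonneg (div_nonneg hx.1 hu0.le)]
    field_simp
  · rw [neg_div, abs_neg, abs_of_nonneg (div_nonneg hx.1 hu0.le), div_le_iff₀ hu0]
    nlinarith [hx.2]

theorem visit_h2 (N : ℕ) {x : ℝ} (hx : x ∈ Icc (0 : ℝ) (u ^ 2 * m)) (k : ℤ) :
    traj u m N (.inr true) (-x / u + (u - 1) * m + 2 * (u * m) * k) = x := by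
  have hu0 : (0 : ℝ) < u := by positivity
  have hm0 : (0 : ℝ) < m := by positivity
  simp only [traj]
  rw [show -x / u + ((u : ℝ) - 1) * m + 2 * (u * m) * k - (u - 1) * m = -x / u + 2 * (u * m) * k by ring]
  rw [tri_add, tri_small _ _ (by positivity)]
  · rw [neg_div, abs_neg, abs_of_nonneg (div_nonneg hx.1 hu0.le)]
    field_simp
  · rw [neg_div, abs_neg, abs_of_nonneg (div_nonneg hx.1 hu0.le), div_le_iff₀ hu0]
    nlinarith [hx.2]

/-- agent `j` passes `x` on its way right, `e = j - x (u+1)/u` time units before the helper -/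
theorem visit_R {x : ℝ} (j : ℕ) (N : ℕ) (hj : j < N)
    (h0 : 0 ≤ j - x * (u + 1) / u) (h1 : j - x * (u + 1) / u ≤ m * (u + 1)) (k : ℤ) :
    traj u m N (.inl ⟨j, hj⟩) (-x / u - (j - x * (u + 1) / u) + 2 * (u * m) * k) = x := by
  have hu0 : (0 : ℝ) < u := by positivity
  have hm0 : (0 : ℝ) < m := by positivity
  simp only [traj]
  set e : ℝ := j - x * (u + 1) / u with he
  have hx : x = (j - e) * (u / (u + 1)) := by
    rw [he]; field_simp; ring
  have h2 : -x / u - e + 2 * (u * m) * k + j / ((u : ℝ) + 1) = -(e * (u / (u + 1))) + 2 * (u * m) * k := by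
    rw [hx]; field_simp; ring
  rw [h2, tri_add, tri_small _ _ (by positivity), abs_neg, abs_of_nonneg (by positivity)]
  · rw [hx]; ring
  · rw [abs_neg, abs_of_nonneg (by positivity)]
    rw [← mul_div_assoc, div_le_iff₀ (by positivity)]
    nlinarith

theorem visit_L {x : ℝ} (j : ℕ) (N : ℕ) (hj : j < N)
    (h0 : 0 ≤ j - x * (u + 1) / u) (h1 : j - x * (u + 1) / u ≤ m * (u + 1)) (k : ℤ) :
    traj u m N (.inl ⟨j, hj⟩)
      (-x / u + (j - x * (u + 1) / u) * ((u - 1) / (u + 1)) + 2 * (u * m) * k) = x := by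
  have hu0 : (0 : ℝ) < u := by positivity
  have hm0 : (0 : ℝ) < m := by positivity
  simp only [traj]
  set e : ℝ := j - x * (u + 1) / u with he
  have hx : x = (j - e) * (u / (u + 1)) := by
    rw [he]; field_simp; ring
  have h2 : -x / u + e * ((u - 1) / (u + 1)) + 2 * (u * m) * k + j / ((u : ℝ) + 1) =
      e * (u / (u + 1)) + 2 * (u * m) * k := by
    rw [hx]; field_simp; ring
  rw [h2, tri_add, tri_small _ _ (by positivity), abs_of_nonneg (by positivity)]
  · rw [hx]; ring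
  · rw [abs_of_nonneg (by positivity)]
    rw [← mul_div_assoc, div_le_iff₀ (by positivity)]
    nlinarith

theorem cover {x : ℝ} (hx : x ∈ Icc (0 : ℝ) (u ^ 2 * m)) (t : ℝ) :
    ∃ i : Fin ((u + 1) ^ 2 * m + 1) ⊕ Bool, ∃ s ∈ Ico t (t + 1),
      traj u m ((u + 1) ^ 2 * m + 1) i s = x := by
  have hu0 : (0 : ℝ) < u := by positivity
  have hu2 : (2 : ℝ) ≤ u := by exact_mod_cast hu
  have hm1 : (1 : ℝ) ≤ m := by exact_mod_cast hm
  have hP : (0 : ℝ) < 2 * (u * m) := by positivity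
  have hxu : 0 ≤ x * (u + 1) / u := div_nonneg (mul_nonneg hx.1 (by positivity)) hu0.le
  have hxu2 : x * (u + 1) / u ≤ u * m * (u + 1) := by
    rw [div_le_iff₀ hu0]
    nlinarith [mul_le_mul_of_nonneg_right hx.2 (show (0 : ℝ) ≤ u + 1 by positivity)]
  -- the index bound
  have hidx : ∀ j : ℕ, (j : ℝ) - x * (u + 1) / u ≤ m * (u + 1) → j < (u + 1) ^ 2 * m + 1 := by
    intro j hj
    have h1 : (j : ℝ) ≤ (u + 1) ^ 2 * m := by nlinarith
    have h2 : j ≤ (u + 1) ^ 2 * m := by exact_mod_cast h1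
    omega
  set w : ℝ := -x / u with hw
  set k : ℤ := ⌈(t - w - m * (u - 1)) / (2 * (u * m))⌉ with hk
  have k1 : (t - w - m * (u - 1)) ≤ k * (2 * (u * m)) := by
    have := Int.le_ceil ((t - w - m * (u - 1)) / (2 * (u * m)))
    rwa [div_le_iff₀ hP] at this
  have k2 : k * (2 * (u * m)) < (t - w - m * (u - 1)) + 2 * (u * m) := by
    have := Int.ceil_lt_add_one ((t - w - m * (u - 1)) / (2 * (u * m)))
    rw [← hk] at this
    calc (k : ℝ) * (2 * (u * m)) < ((t - w - m * (u - 1)) / (2 * (u * m)) + 1) * (2 * (u * m)) :=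
          mul_lt_mul_of_pos_right this hP
      _ = _ := by field_simp
  set t0 : ℝ := t - 2 * (u * m) * k with ht0
  have b1 : t0 ≤ w + m * (u - 1) := by rw [ht0]; linarith
  have b2 : w - m * (u + 1) < t0 := by rw [ht0]; nlinarith
  rcases le_or_gt t0 w with hcase | hcase
  · -- before the first helper
    rcases lt_or_ge (w - t0) 1 with hd | hd
    · refine ⟨.inr false, w + 2 * (u * m) * k, ⟨?_, ?_⟩, visit_h1 hu hm _ hx k⟩
      · rw [ht0] at hcase; linarith
      · rw [ht0] at hd; linarith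
    · set j : ℕ := ⌊x * (u + 1) / u + (w - t0)⌋₊ with hj
      have j1 : (j : ℝ) ≤ x * (u + 1) / u + (w - t0) := Nat.floor_le (by linarith)
      have j2 : x * (u + 1) / u + (w - t0) < j + 1 := Nat.lt_floor_add_one _
      have e0 : 0 ≤ (j : ℝ) - x * (u + 1) / u := by linarith
      have e1 : (j : ℝ) - x * (u + 1) / u ≤ m * (u + 1) := by linarith
      refine ⟨.inl ⟨j, hidx j e1⟩, w - (j - x * (u + 1) / u) + 2 * (u * m) * k, ⟨?_, ?_⟩,
        visit_R hu hm j _ (hidx j e1) e0 e1 k⟩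
      · have : t0 + 2 * (u * m) * k = t := by rw [ht0]; ring
        linarith
      · have : t0 + 2 * (u * m) * k = t := by rw [ht0]; ring
        linarith
  · -- after the first helper
    have hrho : (0 : ℝ) < (u - 1) / (u + 1) := div_pos (by linarith) (by linarith)
    have hrho1 : ((u : ℝ) - 1) / (u + 1) < 1 := by rw [div_lt_one (by linarith)]; linarith
    rcases lt_or_ge (m * ((u : ℝ) - 1)) (t0 - w + 1) with hd | hd
    · refine ⟨.inr true, w + (u - 1) * m + 2 * (u * m) * k, ⟨?_, ?_⟩, visit_h2 hu hm _ hx k⟩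
      · have : t0 + 2 * (u * m) * k = t := by rw [ht0]; ring
        nlinarith
      · have : t0 + 2 * (u * m) * k = t := by rw [ht0]; ring
        nlinarith
    · set d : ℝ := t0 - w with hdd
      have hd0 : 0 < d := by rw [hdd]; linarith
      set j : ℕ := ⌈x * (u + 1) / u + d / ((u - 1) / (u + 1))⌉₊ with hj
      have hdr : 0 < d / (((u : ℝ) - 1) / (u + 1)) := div_pos hd0 hrho
      have j1 : x * (u + 1) / u + d / ((u - 1) / (u + 1)) ≤ j := Nat.le_ceil _
      have j2 : (j : ℝ) < x * (u + 1) / u + d / ((u - 1) / (u + 1)) + 1 :=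
        Nat.ceil_lt_add_one (by linarith)
      have e0 : 0 ≤ (j : ℝ) - x * (u + 1) / u := by linarith
      have f1 : d ≤ (j - x * (u + 1) / u) * ((u - 1) / (u + 1)) := by
        have : d / (((u : ℝ) - 1) / (u + 1)) ≤ j - x * (u + 1) / u := by linarith
        rwa [div_le_iff₀ hrho] at this
      have f2 : (j - x * (u + 1) / u) * ((u - 1) / (u + 1)) < d + ((u : ℝ) - 1) / (u + 1) := by
        have h3 : (j : ℝ) - x * (u + 1) / u < d / ((u - 1) / (u + 1)) + 1 := by linarith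
        calc (j - x * (u + 1) / u) * (((u : ℝ) - 1) / (u + 1))
            < (d / ((u - 1) / (u + 1)) + 1) * ((u - 1) / (u + 1)) := mul_lt_mul_of_pos_right h3 hrho
          _ = d + (u - 1) / (u + 1) := by rw [add_mul, one_mul, div_mul_cancel₀ _ hrho.ne']
      have e1 : (j : ℝ) - x * (u + 1) / u ≤ m * (u + 1) := by
        have h4 : (j - x * (u + 1) / u) * (((u : ℝ) - 1) / (u + 1)) ≤ m * (u + 1) * ((u - 1) / (u + 1)) := by
          have : (m : ℝ) * (u + 1) * ((u - 1) / (u + 1)) = m * (u - 1) := by field_simp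
          rw [this]
          linarith
        exact le_of_mul_le_mul_right h4 hrho
      refine ⟨.inl ⟨j, hidx j e1⟩, w + (j - x * (u + 1) / u) * ((u - 1) / (u + 1)) + 2 * (u * m) * k,
        ⟨?_, ?_⟩, visit_L hu hm j _ (hidx j e1) e0 e1 k⟩
      · have : t0 + 2 * (u * m) * k = t := by rw [ht0]; ring
        linarith
      · have : t0 + 2 * (u * m) * k = t := by rw [ht0]; ring
        linarith

/-- the schedule with `(u+1)^2 m + 1` agents of speed `1` and two agents of speed `u` -/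
theorem schedule : ∃ (k : ℕ) (v : Fin k → ℝ), (∀ i, 0 < v i) ∧
    (∑ i, v i) = (u + 1) ^ 2 * m + 1 + 2 * u ∧ ∃ a : Fin k → ℝ → ℝ,
      (∀ i : Fin k, ∀ s t : ℝ, |a i s - a i t| ≤ v i * |s - t|) ∧
      (∀ x ∈ Icc (0 : ℝ) (u ^ 2 * m), ∀ t : ℝ, ∃ i : Fin k, ∃ s ∈ Ico t (t + 1), a i s = x) := by
  have e := Fintype.equivFin (Fin ((u + 1) ^ 2 * m + 1) ⊕ Bool)
  refine ⟨Fintype.card (Fin ((u + 1) ^ 2 * m + 1) ⊕ Bool), fun i => speed u _ (e.symm i), ?_, ?_,
    fun i => traj u m _ (e.symm i), ?_, ?_⟩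
  · intro i
    exact speed_pos hu _ _
  · rw [Equiv.sum_comp e.symm (speed u ((u + 1) ^ 2 * m + 1)), Fintype.sum_sum_type]
    simp [speed]
  · intro i s t
    exact traj_lip u m _ _ s t
  · intro x hx t
    obtain ⟨i, s, hs, h⟩ := cover hu hm hx t
    exact ⟨e i, s, hs, by simpa using h⟩

end

/-- the known upper bound `L ≤ ∑ v` -/
theorem upper (k : ℕ) (v : Fin k → ℝ) (hv : ∀ i, 0 < v i) (L : ℝ) (a : Fin k → ℝ → ℝ)
    (hlip : ∀ i : Fin k, ∀ s t : ℝ, |a i s - a i t| ≤ v i * |s - t|)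
    (hcov : ∀ x ∈ Icc (0 : ℝ) L, ∀ t : ℝ, ∃ i : Fin k, ∃ s ∈ Ico t (t + 1), a i s = x) :
    L ≤ ∑ i, v i := by
  have hsub : Icc (0 : ℝ) L ⊆ ⋃ i, a i '' (Ico 0 1) := by
    intro x hx
    obtain ⟨i, s, hs, h⟩ := hcov x hx 0
    rw [mem_iUnion]
    refine ⟨i, s, ?_, h⟩
    simpa using hs
  have h1 : MeasureTheory.volume (Icc (0 : ℝ) L) ≤ ∑ i, MeasureTheory.volume (a i '' (Ico 0 1)) :=
    (MeasureTheory.measure_mono hsub).trans (MeasureTheory.measure_iUnion_fintype_le _ _)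
  have h2 : ∀ i, MeasureTheory.volume (a i '' (Ico (0 : ℝ) 1)) ≤ ENNReal.ofReal (v i) := by
    intro i
    refine (Real.volume_le_diam _).trans ?_
    apply Metric.ediam_le
    rintro _ ⟨s, hs, rfl⟩ _ ⟨t, ht, rfl⟩
    rw [edist_dist, Real.dist_eq]
    apply ENNReal.ofReal_le_ofReal
    refine (hlip i s t).trans ?_
    have : |s - t| ≤ 1 := by
      rw [abs_le]; constructor <;> linarith [hs.1, hs.2, ht.1, ht.2]
    nlinarith [hv i]
  rw [Real.volume_Icc, sub_zero] at h1
  have h3 : ENNReal.ofReal L ≤ ENNReal.ofReal (∑ i, v i) := by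
    rw [ENNReal.ofReal_sum_of_nonneg (fun i _ => (hv i).le)]
    exact h1.trans (Finset.sum_le_sum fun i _ => h2 i)
  rwa [ENNReal.ofReal_le_ofReal_iff (Finset.sum_nonneg fun i _ => (hv i).le)] at h3

end Pool.Agent.Helper372.Fence
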