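import Mathlib

set_option autoImplicit false
namespace Pool.Agent.Helper372.Rook
open Finset Function

/-- row/column-injective array with a set `H` of free cells, rigid off `H`. -/
structure Config (R C K : Type*) [Fintype R] [Fintype C] [Fintype K] where
  c : R → C → K
  H : R → C → Prop
  row : ∀ r, Injective (c r)
  col : ∀ q, Injective (fun r => c r q)
  uniq : ∀ g : R → C → K, (∀ r, Injective (g r)) → (∀ q, Injective (fun r => g r q)) →
    (∀ r q, ¬ H r q → g r q = c r q) → g = c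
  card : Fintype.card K + 2 = Fintype.card R + Fintype.card C

variable {R C K : Type*} [Fintype R] [Fintype C] [Fintype K]

def Config.tr (X : Config R C K) : Config C R K where
  c := fun q r => X.c r q
  H := fun q r => X.H r q
  row := X.col
  col := X.row
  uniq := by
    intro g h1 h2 h3
    have := X.uniq (fun r q => g q r) h2 h1 (fun r q h => h3 q r h)
    funext q r
    exact congrFun (congrFun this r) q
  card := by rw [X.card, add_comm]

/-- modification principle -/
theorem Config.mod (X : Config R C K) (g : R → C → K)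
    (h1 : ∀ r q, g r q ≠ X.c r q → X.H r q)
    (h2 : ∀ r q, g r q ≠ X.c r q → ∀ q', q' ≠ q → g r q' ≠ g r q)
    (h3 : ∀ r q, g r q ≠ X.c r q → ∀ r', r' ≠ r → g r' q ≠ g r q) : g = X.c := by
  apply X.uniq
  · intro r q q' h
    by_contra hne
    by_cases ha : g r q = X.c r q
    · by_cases hb : g r q' = X.c r q'
      · exact hne (X.row r (by rw [← ha, ← hb, h]))
      · exact h2 r q' hb q hne h
    · exact h2 r q ha q' (Ne.symm hne) h.symm
  · intro q r r' h
    by_contra hne
    simp only at h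
    by_cases ha : g r q = X.c r q
    · by_cases hb : g r' q = X.c r' q
      · exact hne (X.col q (by simp only; rw [← ha, ← hb, h]))
      · exact h3 r' q hb r hne h
    · exact h3 r q ha r' (Ne.symm hne) h.symm
  · intro r q h
    by_contra hne
    exact h (h1 r q hne)

/-- colour `a` is not seen by the cell `(r,q)` among the prescribed cells -/
def Config.Av (X : Config R C K) (r : R) (q : C) (a : K) : Prop :=
  (∀ q', q' ≠ q → ¬ X.H r q' → X.c r q' ≠ a) ∧ (∀ r', r' ≠ r → ¬ X.H r' q → X.c r' q ≠ a)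

/-- colour `a` is seen twice by the cell `(r,q)` among the prescribed cells -/
def Config.Rep (X : Config R C K) (r : R) (q : C) (a : K) : Prop :=
  (∃ q', q' ≠ q ∧ ¬ X.H r q' ∧ X.c r q' = a) ∧ (∃ r', r' ≠ r ∧ ¬ X.H r' q ∧ X.c r' q = a)

open Classical in
noncomputable def Config.rowN (X : Config R C K) (r : R) (q : C) : Finset C :=
  univ.filter (fun q' => q' ≠ q ∧ X.H r q')

open Classical in
noncomputable def Config.colN (X : Config R C K) (r : R) (q : C) : Finset R :=
  univ.filter (fun r' => r' ≠ r ∧ X.H r' q)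

theorem Config.av_self (X : Config R C K) (r : R) (q : C) : X.Av r q (X.c r q) :=
  ⟨fun _ h _ e => h (X.row r e), fun _ h _ e => h (X.col q e)⟩

open Classical in
theorem Config.card_av (X : Config R C K) (r : R) (q : C) :
    (univ.filter (fun a => X.Av r q a)).card =
      (X.rowN r q).card + (X.colN r q).card + (univ.filter (fun a => X.Rep r q a)).card := by
  set U : Finset K := (univ.filter (fun q' => q' ≠ q ∧ ¬ X.H r q')).image (X.c r) with hU
  set V : Finset K := (univ.filter (fun r' => r' ≠ r ∧ ¬ X.H r' q)).image (fun r' => X.c r' q) with hV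
  have cU : U.card + (X.rowN r q).card + 1 = Fintype.card C := by
    rw [hU, card_image_of_injective _ (X.row r)]
    unfold Config.rowN
    have h1 : (univ.filter (fun q' => q' ≠ q ∧ ¬ X.H r q')).card
        + (univ.filter (fun q' => q' ≠ q ∧ X.H r q')).card = (univ.filter (fun q' : C => q' ≠ q)).card := by
      rw [← card_union_of_disjoint]
      · congr 1
        ext x
        simp only [mem_union, mem_filter, mem_univ, true_and]
        tauto
      · rw [disjoint_left]
        intro x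
        simp only [mem_filter, mem_univ, true_and]
        tauto
    rw [h1, filter_ne' univ q, card_erase_of_mem (mem_univ q), card_univ]
    have : 0 < Fintype.card C := Fintype.card_pos_iff.mpr ⟨q⟩
    omega
  have cV : V.card + (X.colN r q).card + 1 = Fintype.card R := by
    rw [hV, card_image_of_injective _ (X.col q)]
    unfold Config.colN
    have h1 : (univ.filter (fun r' => r' ≠ r ∧ ¬ X.H r' q)).card
        + (univ.filter (fun r' => r' ≠ r ∧ X.H r' q)).card = (univ.filter (fun r' : R => r' ≠ r)).card := by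
      rw [← card_union_of_disjoint]
      · congr 1
        ext x
        simp only [mem_union, mem_filter, mem_univ, true_and]
        tauto
      · rw [disjoint_left]
        intro x
        simp only [mem_filter, mem_univ, true_and]
        tauto
    rw [h1, filter_ne' univ r, card_erase_of_mem (mem_univ r), card_univ]
    have : 0 < Fintype.card R := Fintype.card_pos_iff.mpr ⟨r⟩
    omega
  have hAv : univ.filter (fun a => X.Av r q a) = (U ∪ V)ᶜ := by
    ext a
    rw [mem_filter, mem_compl, mem_union, hU, hV, mem_image, mem_image]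
    simp only [mem_filter, mem_univ, true_and]
    constructor
    · rintro ⟨h1, h2⟩ (⟨x, hx, rfl⟩ | ⟨x, hx, rfl⟩)
      · exact h1 x hx.1 hx.2 rfl
      · exact h2 x hx.1 hx.2 rfl
    · intro h
      push Not at h
      exact ⟨fun x h1 h2 h3 => h.1 x ⟨h1, h2⟩ h3, fun x h1 h2 h3 => h.2 x ⟨h1, h2⟩ h3⟩
  have hRep : univ.filter (fun a => X.Rep r q a) = U ∩ V := by
    ext a
    rw [mem_filter, mem_inter, hU, hV, mem_image, mem_image]
    simp only [mem_filter, mem_univ, true_and]
    constructor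
    · rintro ⟨⟨x, h1, h2, h3⟩, ⟨y, h4, h5, h6⟩⟩
      exact ⟨⟨x, ⟨h1, h2⟩, h3⟩, ⟨y, ⟨h4, h5⟩, h6⟩⟩
    · rintro ⟨⟨x, ⟨h1, h2⟩, h3⟩, ⟨y, ⟨h4, h5⟩, h6⟩⟩
      exact ⟨⟨x, h1, h2, h3⟩, ⟨y, h4, h5, h6⟩⟩
  rw [hAv, hRep, card_compl]
  have h1 := card_union_add_card_inter U V
  have h2 := X.card
  have h3 : (U ∪ V).card ≤ Fintype.card K := card_le_univ _
  omega

/-- an available colour different from the colour of the cell is blocked by a free neighbour -/
theorem Config.blocked (X : Config R C K) {r : R} {q : C} (h : X.H r q) {a : K}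
    (ha : X.Av r q a) (hne : a ≠ X.c r q) :
    (∃ q', q' ≠ q ∧ X.H r q' ∧ X.c r q' = a) ∨ (∃ r', r' ≠ r ∧ X.H r' q ∧ X.c r' q = a) := by
  classical
  by_contra hcon
  push Not at hcon
  obtain ⟨hr, hc⟩ := hcon
  let g : R → C → K := fun r' q' => if r' = r ∧ q' = q then a else X.c r' q'
  have hg : ∀ r' q', g r' q' ≠ X.c r' q' → r' = r ∧ q' = q := by
    intro r' q' h'
    by_contra hh
    exact h' (by simp only [g, if_neg hh])
  have key : g = X.c := by
    apply X.mod
    · intro r' q' h'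
      obtain ⟨rfl, rfl⟩ := hg _ _ h'
      exact h
    · intro r' q' h' q'' hq
      obtain ⟨rfl, rfl⟩ := hg _ _ h'
      have e1 : g r' q' = a := by simp [g]
      have e2 : g r' q'' = X.c r' q'' := by simp [g, hq]
      rw [e1, e2]
      by_cases hH : X.H r' q''
      · exact hr q'' hq hH
      · exact ha.1 q'' hq hH
    · intro r' q' h' r'' hq
      obtain ⟨rfl, rfl⟩ := hg _ _ h'
      have e1 : g r' q' = a := by simp [g]
      have e2 : g r'' q' = X.c r'' q' := by simp [g, hq]
      rw [e1, e2]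
      by_cases hH : X.H r'' q'
      · exact hc r'' hq hH
      · exact ha.2 r'' hq hH
  have : g r q = a := by simp [g]
  rw [key] at this
  exact hne this.symm

open Classical in
theorem Config.rep_conseq (X : Config R C K) {r : R} {q : C} (h : X.H r q) {a₀ : K}
    (h0 : X.Rep r q a₀) :
    (∀ q', q' ≠ q → X.H r q' → X.Av r q (X.c r q')) ∧
    (∀ r', r' ≠ r → X.H r' q → X.Av r q (X.c r' q)) ∧
    (∀ q' r', q' ≠ q → X.H r q' → r' ≠ r → X.H r' q → X.c r q' ≠ X.c r' q) ∧
    (∀ a, X.Rep r q a → a = a₀) := by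
  set A : Finset K := univ.filter (fun a => X.Av r q a) with hA
  set P : Finset K := univ.filter (fun a => X.Rep r q a) with hP
  set I1 : Finset K := (X.rowN r q).image (X.c r) with hI1
  set I2 : Finset K := (X.colN r q).image (fun r' => X.c r' q) with hI2
  have hcard := X.card_av r q
  rw [← hA, ← hP] at hcard
  have c1 : I1.card = (X.rowN r q).card := card_image_of_injective _ (X.row r)
  have c2 : I2.card = (X.colN r q).card := card_image_of_injective _ (X.col q)
  have hsub : A ⊆ insert (X.c r q) (I1 ∪ I2) := by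
    intro a ha
    simp only [hA, mem_filter, mem_univ, true_and] at ha
    by_cases hne : a = X.c r q
    · simp [hne]
    · rcases X.blocked h ha hne with ⟨q', h1, h2, h3⟩ | ⟨r', h1, h2, h3⟩
      · apply mem_insert_of_mem
        apply mem_union_left
        rw [hI1, mem_image]
        exact ⟨q', by simp [Config.rowN, h1, h2], h3⟩
      · apply mem_insert_of_mem
        apply mem_union_right
        rw [hI2, mem_image]
        exact ⟨r', by simp [Config.colN, h1, h2], h3⟩
  have hle := card_le_card hsub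
  have hins : (insert (X.c r q) (I1 ∪ I2)).card ≤ (I1 ∪ I2).card + 1 := card_insert_le _ _
  have hun := card_union_add_card_inter I1 I2
  have hP1 : 1 ≤ P.card := by
    rw [Nat.succ_le_iff, card_pos]
    exact ⟨a₀, by simp [hP, h0]⟩
  have hint : (I1 ∩ I2).card = 0 := by omega
  have hP2 : P.card = 1 := by omega
  have hEq : A = insert (X.c r q) (I1 ∪ I2) := by
    apply eq_of_subset_of_card_le hsub
    omega
  refine ⟨?_, ?_, ?_, ?_⟩
  · intro q' h1 h2
    have : X.c r q' ∈ A := by
      rw [hEq]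
      apply mem_insert_of_mem
      apply mem_union_left
      rw [hI1, mem_image]
      exact ⟨q', by simp [Config.rowN, h1, h2], rfl⟩
    simpa [hA] using this
  · intro r' h1 h2
    have : X.c r' q ∈ A := by
      rw [hEq]
      apply mem_insert_of_mem
      apply mem_union_right
      rw [hI2, mem_image]
      exact ⟨r', by simp [Config.colN, h1, h2], rfl⟩
    simpa [hA] using this
  · intro q' r' h1 h2 h3 h4 he
    rw [card_eq_zero] at hint
    have : X.c r q' ∈ I1 ∩ I2 := by
      rw [mem_inter]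
      constructor
      · rw [hI1, mem_image]
        exact ⟨q', by simp [Config.rowN, h1, h2], rfl⟩
      · rw [hI2, mem_image]
        exact ⟨r', by simp [Config.colN, h3, h4], he.symm⟩
    rw [hint] at this
    simp at this
  · intro a ha
    rw [card_eq_one] at hP2
    obtain ⟨b, hb⟩ := hP2
    have m1 : a ∈ P := by simp [hP, ha]
    have m2 : a₀ ∈ P := by simp [hP, h0]
    rw [hb, mem_singleton] at m1 m2
    rw [m1, m2]

open Classical in
theorem Config.alt3 (X : Config R C K) (r : R) {q q2 q3 : C} (h12 : q ≠ q2) (h13 : q ≠ q3) (h23 : q2 ≠ q3) :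
    ∃ a, a ≠ X.c r q ∧ (∀ q', q' ≠ q → q' ≠ q2 → q' ≠ q3 → X.c r q' ≠ a) ∧ (∀ r', r' ≠ r → X.c r' q ≠ a) := by
  set T1 : Finset K := (univ \ {q, q2, q3} : Finset C).image (X.c r) with hT1
  set T2 : Finset K := (univ \ {r} : Finset R).image (fun r' => X.c r' q) with hT2
  have c1 : T1.card + 3 = Fintype.card C := by
    rw [hT1, card_image_of_injective _ (X.row r), card_sdiff_of_subset (subset_univ _), card_univ]
    have h3 : ({q, q2, q3} : Finset C).card = 3 := by
      rw [card_eq_three]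
      exact ⟨q, q2, q3, h12, h13, h23, rfl⟩
    have : ({q, q2, q3} : Finset C).card ≤ Fintype.card C := card_le_univ _
    omega
  have c2 : T2.card + 1 = Fintype.card R := by
    rw [hT2, card_image_of_injective _ (X.col q), card_sdiff_of_subset (subset_univ _), card_univ,
      card_singleton]
    have : 0 < Fintype.card R := Fintype.card_pos_iff.mpr ⟨r⟩
    omega
  have hc := X.card
  have hlt : (insert (X.c r q) (T1 ∪ T2)).card < Fintype.card K := by
    have h1 := card_insert_le (X.c r q) (T1 ∪ T2)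
    have h2 := card_union_le T1 T2
    omega
  obtain ⟨a, ha⟩ : ∃ a, a ∉ insert (X.c r q) (T1 ∪ T2) := by
    by_contra hcon
    push Not at hcon
    have : insert (X.c r q) (T1 ∪ T2) = univ := eq_univ_of_forall hcon
    rw [this, card_univ] at hlt
    exact lt_irrefl _ hlt
  rw [mem_insert, mem_union, hT1, hT2, mem_image, mem_image] at ha
  push Not at ha
  refine ⟨a, ha.1, ?_, ?_⟩
  · intro q' h1 h2 h3
    exact ha.2.1 q' (by simp [h1, h2, h3])
  · intro r' h1
    exact ha.2.2 r' (by simp [h1])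

open Classical in
theorem Config.mod3 (X : Config R C K) (r : R) {q1 q2 q3 : C} (h12 : q1 ≠ q2) (h13 : q1 ≠ q3) (h23 : q2 ≠ q3)
    (H1 : X.H r q1) (H2 : X.H r q2) (H3 : X.H r q3) {a1 a2 a3 : K}
    (n12 : a1 ≠ a2) (n13 : a1 ≠ a3) (n23 : a2 ≠ a3)
    (p1 : ∀ q', q' ≠ q1 → q' ≠ q2 → q' ≠ q3 → X.c r q' ≠ a1)
    (p2 : ∀ q', q' ≠ q1 → q' ≠ q2 → q' ≠ q3 → X.c r q' ≠ a2)
    (p3 : ∀ q', q' ≠ q1 → q' ≠ q2 → q' ≠ q3 → X.c r q' ≠ a3)
    (s1 : ∀ r', r' ≠ r → X.c r' q1 ≠ a1) (s2 : ∀ r', r' ≠ r → X.c r' q2 ≠ a2)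
    (s3 : ∀ r', r' ≠ r → X.c r' q3 ≠ a3) :
    a1 = X.c r q1 ∧ a2 = X.c r q2 ∧ a3 = X.c r q3 := by
  let g : R → C → K := fun r' q' =>
    if r' = r then (if q' = q1 then a1 else if q' = q2 then a2 else if q' = q3 then a3 else X.c r' q')
    else X.c r' q'
  have g1 : g r q1 = a1 := by simp [g]
  have g2 : g r q2 = a2 := by simp [g, h12.symm]
  have g3 : g r q3 = a3 := by simp [g, h13.symm, h23.symm]
  have g4 : ∀ q', q' ≠ q1 → q' ≠ q2 → q' ≠ q3 → g r q' = X.c r q' := by
    intro q' e1 e2 e3; simp [g, e1, e2, e3]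
  have g5 : ∀ r' q', r' ≠ r → g r' q' = X.c r' q' := by
    intro r' q' e; simp [g, e]
  have hg : ∀ r' q', g r' q' ≠ X.c r' q' → r' = r ∧ (q' = q1 ∨ q' = q2 ∨ q' = q3) := by
    intro r' q' h
    by_cases e : r' = r
    · refine ⟨e, ?_⟩
      by_contra hcon
      push Not at hcon
      subst e
      exact h (g4 q' hcon.1 hcon.2.1 hcon.2.2)
    · exact absurd (g5 r' q' e) h
  have hgr : ∀ q', q' = q1 ∨ q' = q2 ∨ q' = q3 ∨ (q' ≠ q1 ∧ q' ≠ q2 ∧ q' ≠ q3) := by
    intro q'; tauto
  have key : g = X.c := by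
    apply X.mod
    · intro r' q' h
      obtain ⟨rfl, rfl | rfl | rfl⟩ := hg r' q' h <;> assumption
    · intro r' q' h q'' hq
      obtain ⟨rfl, h4⟩ := hg r' q' h
      rcases h4 with rfl | rfl | rfl
      · rw [g1]
        rcases hgr q'' with rfl | rfl | rfl | ⟨e1, e2, e3⟩
        · exact absurd rfl hq
        · rw [g2]; exact n12.symm
        · rw [g3]; exact n13.symm
        · rw [g4 _ e1 e2 e3]; exact p1 _ e1 e2 e3
      · rw [g2]
        rcases hgr q'' with rfl | rfl | rfl | ⟨e1, e2, e3⟩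
        · rw [g1]; exact n12
        · exact absurd rfl hq
        · rw [g3]; exact n23.symm
        · rw [g4 _ e1 e2 e3]; exact p2 _ e1 e2 e3
      · rw [g3]
        rcases hgr q'' with rfl | rfl | rfl | ⟨e1, e2, e3⟩
        · rw [g1]; exact n13
        · rw [g2]; exact n23
        · exact absurd rfl hq
        · rw [g4 _ e1 e2 e3]; exact p3 _ e1 e2 e3
    · intro r' q' h r'' hr
      obtain ⟨rfl, h4⟩ := hg r' q' h
      rw [g5 r'' q' hr]
      rcases h4 with rfl | rfl | rfl
      · rw [g1]; exact s1 _ hr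
      · rw [g2]; exact s2 _ hr
      · rw [g3]; exact s3 _ hr
  rw [key] at g1 g2 g3
  exact ⟨g1.symm, g2.symm, g3.symm⟩

theorem Config.three (X : Config R C K) (r : R) {q1 q2 q3 : C} (h12 : q1 ≠ q2) (h13 : q1 ≠ q3) (h23 : q2 ≠ q3)
    (H1 : X.H r q1) (H2 : X.H r q2) (H3 : X.H r q3) : False := by
  obtain ⟨a1, n1, p1, s1⟩ := X.alt3 r h12 h13 h23
  obtain ⟨a2, n2, p2', s2⟩ := X.alt3 r h12.symm h23 h13
  obtain ⟨a3, n3, p3', s3⟩ := X.alt3 r h13.symm h23.symm h12
  have p2 : ∀ q', q' ≠ q1 → q' ≠ q2 → q' ≠ q3 → X.c r q' ≠ a2 := fun q' e1 e2 e3 => p2' q' e2 e1 e3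
  have p3 : ∀ q', q' ≠ q1 → q' ≠ q2 → q' ≠ q3 → X.c r q' ≠ a3 := fun q' e1 e2 e3 => p3' q' e3 e1 e2
  have m12 : X.c r q1 ≠ X.c r q2 := fun h => h12 (X.row r h)
  have m13 : X.c r q1 ≠ X.c r q3 := fun h => h13 (X.row r h)
  have m23 : X.c r q2 ≠ X.c r q3 := fun h => h23 (X.row r h)
  have t1 : ∀ q', q' ≠ q1 → q' ≠ q2 → q' ≠ q3 → X.c r q' ≠ X.c r q1 := fun q' e1 _ _ h => e1 (X.row r h)
  have t2 : ∀ q', q' ≠ q1 → q' ≠ q2 → q' ≠ q3 → X.c r q' ≠ X.c r q2 := fun q' _ e1 _ h => e1 (X.row r h)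
  have t3 : ∀ q', q' ≠ q1 → q' ≠ q2 → q' ≠ q3 → X.c r q' ≠ X.c r q3 := fun q' _ _ e1 h => e1 (X.row r h)
  have u1 : ∀ r', r' ≠ r → X.c r' q1 ≠ X.c r q1 := fun r' e h => e (X.col q1 h)
  have u2 : ∀ r', r' ≠ r → X.c r' q2 ≠ X.c r q2 := fun r' e h => e (X.col q2 h)
  have u3 : ∀ r', r' ≠ r → X.c r' q3 ≠ X.c r q3 := fun r' e h => e (X.col q3 h)
  by_cases e12 : a1 = X.c r q2
  · by_cases e21 : a2 = X.c r q1
    · exact n1 (X.mod3 r h12 h13 h23 H1 H2 H3 (by rw [e12, e21]; exact m12.symm) (by rw [e12]; exact m23)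
        (by rw [e21]; exact m13) p1 p2 t3 s1 s2 u3).1
    · by_cases e23 : a2 = X.c r q3
      · by_cases e31 : a3 = X.c r q1
        · exact n1 (X.mod3 r h12 h13 h23 H1 H2 H3 (by rw [e12, e23]; exact m23) (by rw [e12, e31]; exact m12.symm)
            (by rw [e23, e31]; exact m13.symm) p1 p2 p3 s1 s2 s3).1
        · by_cases e32 : a3 = X.c r q2
          · exact n2 (X.mod3 r h12 h13 h23 H1 H2 H3 (by rw [e23]; exact m13) (by rw [e32]; exact m12)
              (by rw [e23, e32]; exact m23.symm) t1 p2 p3 u1 s2 s3).2.1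
          · exact n3 (X.mod3 r h12 h13 h23 H1 H2 H3 m12 (Ne.symm e31)
              (Ne.symm e32) t1 t2 p3 u1 u2 s3).2.2
      · exact n2 (X.mod3 r h12 h13 h23 H1 H2 H3 (Ne.symm e21) m13
              (by exact e23) t1 p2 t3 u1 s2 u3).2.1
  · by_cases e13 : a1 = X.c r q3
    · by_cases e31 : a3 = X.c r q1
      · exact n1 (X.mod3 r h12 h13 h23 H1 H2 H3 (by rw [e13]; exact m23.symm) (by rw [e13, e31]; exact m13.symm)
          (by rw [e31]; exact m12.symm) p1 t2 p3 s1 u2 s3).1
      · by_cases e32 : a3 = X.c r q2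
        · by_cases e21 : a2 = X.c r q1
          · exact n1 (X.mod3 r h12 h13 h23 H1 H2 H3 (by rw [e13, e21]; exact m13.symm) (by rw [e13, e32]; exact m23.symm)
              (by rw [e21, e32]; exact m12) p1 p2 p3 s1 s2 s3).1
          · by_cases e23 : a2 = X.c r q3
            · exact n2 (X.mod3 r h12 h13 h23 H1 H2 H3 (by rw [e23]; exact m13) (by rw [e32]; exact m12)
                (by rw [e23, e32]; exact m23.symm) t1 p2 p3 u1 s2 s3).2.1
            · exact n2 (X.mod3 r h12 h13 h23 H1 H2 H3 (Ne.symm e21) m13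
                (by exact e23) t1 p2 t3 u1 s2 u3).2.1
        · exact n3 (X.mod3 r h12 h13 h23 H1 H2 H3 m12 (Ne.symm e31)
              (Ne.symm e32) t1 t2 p3 u1 u2 s3).2.2
    · exact n1 (X.mod3 r h12 h13 h23 H1 H2 H3 e12 e13 m23 p1 t2 t3 s1 u2 u3).1

theorem Config.two_row (X : Config R C K) {r : R} {q1 q2 : C} (h : q1 ≠ q2) (H1 : X.H r q1) (H2 : X.H r q2) :
    ∀ q', q' ≠ q1 → q' ≠ q2 → ¬ X.H r q' := fun _ h1 h2 H3 =>
  X.three r h (Ne.symm h1) (Ne.symm h2) H1 H2 H3

theorem Config.two_col (X : Config R C K) {q : C} {r1 r2 : R} (h : r1 ≠ r2) (H1 : X.H r1 q) (H2 : X.H r2 q) :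
    ∀ r', r' ≠ r1 → r' ≠ r2 → ¬ X.H r' q := fun _ h1 h2 H3 =>
  X.tr.three q h (Ne.symm h1) (Ne.symm h2) H1 H2 H3

/-- five consecutive free cells -/
structure Config.Chain (X : Config R C K) (r0 r1 r2 : R) (q0 q1 q2 : C) : Prop where
  r01 : r0 ≠ r1
  r02 : r0 ≠ r2
  r12 : r1 ≠ r2
  q01 : q0 ≠ q1
  q02 : q0 ≠ q2
  q12 : q1 ≠ q2
  h1 : X.H r0 q0
  h2 : X.H r1 q0
  h3 : X.H r1 q1
  h4 : X.H r2 q1
  h5 : X.H r2 q2

open Classical in
theorem Config.chain_mod (X : Config R C K) {r0 r1 r2 : R} {q0 q1 q2 : C} (ch : X.Chain r0 r1 r2 q0 q1 q2)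
    {a1 a2 a3 a4 a5 : K}
    (v1 : X.Av r0 q0 a1) (v2 : X.Av r1 q0 a2) (v3 : X.Av r1 q1 a3) (v4 : X.Av r2 q1 a4) (v5 : X.Av r2 q2 a5)
    (n12 : a1 ≠ a2) (n23 : a2 ≠ a3) (n34 : a3 ≠ a4) (n45 : a4 ≠ a5)
    (o1 : ∀ q', q' ≠ q0 → X.H r0 q' → X.c r0 q' ≠ a1)
    (o5 : ∀ r', r' ≠ r2 → X.H r' q2 → X.c r' q2 ≠ a5) :
    a1 = X.c r0 q0 ∧ a2 = X.c r1 q0 ∧ a3 = X.c r1 q1 ∧ a4 = X.c r2 q1 ∧ a5 = X.c r2 q2 := by
  obtain ⟨r01, r02, r12, q01, q02, q12, h1, h2, h3, h4, h5⟩ := ch
  have R1 := X.two_row q01 h2 h3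
  have R2 := X.two_row q12 h4 h5
  have C0 := X.two_col r01 h1 h2
  have C1 := X.two_col r12 h3 h4
  let g : R → C → K := fun r q => if r = r0 ∧ q = q0 then a1 else if r = r1 ∧ q = q0 then a2 else
    if r = r1 ∧ q = q1 then a3 else if r = r2 ∧ q = q1 then a4 else if r = r2 ∧ q = q2 then a5 else X.c r q
  have g1 : g r0 q0 = a1 := by simp [g]
  have g2 : g r1 q0 = a2 := by simp [g, r01.symm]
  have g3 : g r1 q1 = a3 := by simp [g, r01.symm, q01.symm]
  have g4 : g r2 q1 = a4 := by simp [g, r02.symm, r12.symm]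
  have g5 : g r2 q2 = a5 := by simp [g, r02.symm, r12.symm, q12.symm]
  have g0 : ∀ r q, ¬ (r = r0 ∧ q = q0) → ¬ (r = r1 ∧ q = q0) → ¬ (r = r1 ∧ q = q1) → ¬ (r = r2 ∧ q = q1) →
      ¬ (r = r2 ∧ q = q2) → g r q = X.c r q := by
    intro r q e1 e2 e3 e4 e5
    simp only [g, if_neg e1, if_neg e2, if_neg e3, if_neg e4, if_neg e5]
  have hg : ∀ r q, g r q ≠ X.c r q → (r = r0 ∧ q = q0) ∨ (r = r1 ∧ q = q0) ∨ (r = r1 ∧ q = q1) ∨
      (r = r2 ∧ q = q1) ∨ (r = r2 ∧ q = q2) := by
    intro r q h
    by_contra hcon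
    push Not at hcon
    exact h (g0 r q (fun e => hcon.1 e.1 e.2) (fun e => hcon.2.1 e.1 e.2) (fun e => hcon.2.2.1 e.1 e.2)
      (fun e => hcon.2.2.2.1 e.1 e.2) (fun e => hcon.2.2.2.2 e.1 e.2))
  have gr0 : ∀ q', q' ≠ q0 → g r0 q' = X.c r0 q' := by
    intro q' e; simp [g, e, r01, r02]
  have gr1 : ∀ q', q' ≠ q0 → q' ≠ q1 → g r1 q' = X.c r1 q' := by
    intro q' e e'; simp [g, e, e', r12]
  have gr2 : ∀ q', q' ≠ q1 → q' ≠ q2 → g r2 q' = X.c r2 q' := by
    intro q' e e'; simp [g, e, e', r02.symm, r12.symm]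
  have gc0 : ∀ r', r' ≠ r0 → r' ≠ r1 → g r' q0 = X.c r' q0 := by
    intro q' e e'; simp [g, e, e', q01, q02]
  have gc1 : ∀ r', r' ≠ r1 → r' ≠ r2 → g r' q1 = X.c r' q1 := by
    intro q' e e'; simp [g, e, e', q01.symm]
  have gc2 : ∀ r', r' ≠ r2 → g r' q2 = X.c r' q2 := by
    intro q' e; simp [g, e, q02.symm, q12.symm]
  have key : g = X.c := by
    apply X.mod
    · intro r q h
      rcases hg r q h with ⟨rfl, rfl⟩ | ⟨rfl, rfl⟩ | ⟨rfl, rfl⟩ | ⟨rfl, rfl⟩ | ⟨rfl, rfl⟩ <;> assumption
    · intro r q h q' hq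
      rcases hg r q h with ⟨rfl, rfl⟩ | ⟨rfl, rfl⟩ | ⟨rfl, rfl⟩ | ⟨rfl, rfl⟩ | ⟨rfl, rfl⟩
      · rw [g1, gr0 q' hq]
        by_cases hH : X.H r q'
        · exact o1 q' hq hH
        · exact v1.1 q' hq hH
      · rw [g2]
        by_cases e : q' = q1
        · subst e; rw [g3]; exact n23.symm
        · rw [gr1 q' hq e]
          exact v2.1 q' hq (R1 q' hq e)
      · rw [g3]
        by_cases e : q' = q0
        · subst e; rw [g2]; exact n23
        · rw [gr1 q' e hq]
          exact v3.1 q' hq (R1 q' e hq)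
      · rw [g4]
        by_cases e : q' = q2
        · subst e; rw [g5]; exact n45.symm
        · rw [gr2 q' hq e]
          exact v4.1 q' hq (R2 q' hq e)
      · rw [g5]
        by_cases e : q' = q1
        · subst e; rw [g4]; exact n45
        · rw [gr2 q' e hq]
          exact v5.1 q' hq (R2 q' e hq)
    · intro r q h r' hr
      rcases hg r q h with ⟨rfl, rfl⟩ | ⟨rfl, rfl⟩ | ⟨rfl, rfl⟩ | ⟨rfl, rfl⟩ | ⟨rfl, rfl⟩
      · rw [g1]
        by_cases e : r' = r1
        · subst e; rw [g2]; exact n12.symm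
        · rw [gc0 r' hr e]
          exact v1.2 r' hr (C0 r' hr e)
      · rw [g2]
        by_cases e : r' = r0
        · subst e; rw [g1]; exact n12
        · rw [gc0 r' e hr]
          exact v2.2 r' hr (C0 r' e hr)
      · rw [g3]
        by_cases e : r' = r2
        · subst e; rw [g4]; exact n34.symm
        · rw [gc1 r' hr e]
          exact v3.2 r' hr (C1 r' hr e)
      · rw [g4]
        by_cases e : r' = r1
        · subst e; rw [g3]; exact n34
        · rw [gc1 r' e hr]
          exact v4.2 r' hr (C1 r' e hr)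
      · rw [g5, gc2 r' hr]
        by_cases hH : X.H r' q
        · exact o5 r' hr hH
        · exact v5.2 r' hr hH
  rw [key] at g1 g2 g3 g4 g5
  exact ⟨g1.symm, g2.symm, g3.symm, g4.symm, g5.symm⟩

open Classical in
/-- a free cell with two free neighbours can take the colour of one of them (up to the other) -/
theorem Config.interior (X : Config R C K) {r r' : R} {q q' : C} (h : X.H r q) (hr : r' ≠ r) (hq : q' ≠ q)
    (h1 : X.H r q') (h2 : X.H r' q) : X.Av r q (X.c r q') ∨ X.Av r q (X.c r' q) := by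
  have hc := X.card_av r q
  have m1 : 1 ≤ (X.rowN r q).card := by
    rw [Nat.succ_le_iff, card_pos]; exact ⟨q', by simp [Config.rowN, h1, hq]⟩
  have m2 : 1 ≤ (X.colN r q).card := by
    rw [Nat.succ_le_iff, card_pos]; exact ⟨r', by simp [Config.colN, h2, hr]⟩
  have h3 : 1 < (univ.filter (fun a => X.Av r q a)).card := by omega
  obtain ⟨a, ha, hne⟩ := exists_mem_ne h3 (X.c r q)
  rw [mem_filter] at ha
  rcases X.blocked h ha.2 hne with ⟨q'', e1, e2, e3⟩ | ⟨r'', e1, e2, e3⟩
  · have : q'' = q' := by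
      by_contra hne2
      exact X.two_row (Ne.symm hq) h h1 q'' e1 hne2 e2
    subst this
    left; rw [e3]; exact ha.2
  · have : r'' = r' := by
      by_contra hne2
      exact X.two_col (Ne.symm hr) h h2 r'' e1 hne2 e2
    subst this
    right; rw [e3]; exact ha.2

/-- if a colour is not available it is seen -/
theorem Config.not_av (X : Config R C K) {r : R} {q : C} {a : K} (h : ¬ X.Av r q a) :
    (∃ q', q' ≠ q ∧ ¬ X.H r q' ∧ X.c r q' = a) ∨ (∃ r', r' ≠ r ∧ ¬ X.H r' q ∧ X.c r' q = a) := by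
  by_contra hcon
  push Not at hcon
  exact h ⟨hcon.1, hcon.2⟩

structure Config.ChainConc (X : Config R C K) (r0 r1 r2 : R) (q0 q1 q2 : C) : Prop where
  s3 : X.Rep r1 q1 (X.c r0 q1)
  n1 : ∀ a, ¬ X.Rep r0 q0 a
  n2 : ∀ a, ¬ X.Rep r1 q0 a
  n4 : ∀ a, ¬ X.Rep r2 q1 a
  n5 : ∀ a, ¬ X.Rep r2 q2 a
  x3 : X.c r2 q0 = X.c r1 q1

theorem Config.chain_conc (X : Config R C K) {r0 r1 r2 : R} {q0 q1 q2 : C} (ch : X.Chain r0 r1 r2 q0 q1 q2) :
    X.ChainConc r0 r1 r2 q0 q1 q2 := by
  have chm := @Config.chain_mod _ _ _ _ _ _ X _ _ _ _ _ _ ch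
  obtain ⟨r01, r02, r12, q01, q02, q12, h1, h2, h3, h4, h5⟩ := ch
  have R1 := X.two_row q01 h2 h3
  have R2 := X.two_row q12 h4 h5
  have C0 := X.two_col r01 h1 h2
  have C1 := X.two_col r12 h3 h4
  have V1 := X.av_self r0 q0
  have V2 := X.av_self r1 q0
  have V3 := X.av_self r1 q1
  have V4 := X.av_self r2 q1
  have V5 := X.av_self r2 q2
  have d12 : X.c r0 q0 ≠ X.c r1 q0 := fun h => r01 (X.col q0 h)
  have d23 : X.c r1 q0 ≠ X.c r1 q1 := fun h => q01 (X.row r1 h)
  have d34 : X.c r1 q1 ≠ X.c r2 q1 := fun h => r12 (X.col q1 h)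
  have d45 : X.c r2 q1 ≠ X.c r2 q2 := fun h => q12 (X.row r2 h)
  have A2 := X.interior h2 r01 q01.symm h3 h1
  have A3 := X.interior h3 r12.symm q01 h2 h4
  have A4 := X.interior h4 r12 q12.symm h5 h3
  have O1 : ∀ q', q' ≠ q0 → X.H r0 q' → X.c r0 q' ≠ X.c r0 q0 := fun q' e _ h => e (X.row r0 h)
  have O5 : ∀ r', r' ≠ r2 → X.H r' q2 → X.c r' q2 ≠ X.c r2 q2 := fun r' e _ h => e (X.col q2 h)
  set c1 := X.c r0 q0 with hc1
  set c2 := X.c r1 q0 with hc2
  set c3 := X.c r1 q1 with hc3
  set c4 := X.c r2 q1 with hc4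
  set c5 := X.c r2 q2 with hc5
  -- runs
  have run12 : X.Av r0 q0 c2 → (∀ q', q' ≠ q0 → X.H r0 q' → X.c r0 q' ≠ c2) →
      X.Av r1 q0 c1 → c1 ≠ c3 → False := by
    intro a b d e
    exact d12.symm (chm a d V3 V4 V5 d12.symm e d34 d45 b O5).1
  have run13 : X.Av r0 q0 c2 → (∀ q', q' ≠ q0 → X.H r0 q' → X.c r0 q' ≠ c2) →
      X.Av r1 q1 c2 → c2 ≠ c4 → False := by
    intro a b d e
    have k2 : X.Av r1 q0 c3 := by
      rcases A2 with A2 | A2
      · exact A2
      · by_cases h : c1 = c3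
        · rw [← h]; exact A2
        · exact (run12 a b A2 h).elim
    exact d12.symm (chm a k2 d V4 V5 d23 d23.symm e d45 b O5).1
  have run14 : X.Av r0 q0 c2 → (∀ q', q' ≠ q0 → X.H r0 q' → X.c r0 q' ≠ c2) →
      X.Av r2 q1 c3 → c3 ≠ c5 → False := by
    intro a b d e
    have k2 : X.Av r1 q0 c3 := by
      rcases A2 with A2 | A2
      · exact A2
      · by_cases h : c1 = c3
        · rw [← h]; exact A2
        · exact (run12 a b A2 h).elim
    have k3 : X.Av r1 q1 c4 := by
      rcases A3 with A3 | A3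
      · by_cases h : c2 = c4
        · rw [← h]; exact A3
        · exact (run13 a b A3 h).elim
      · exact A3
    exact d12.symm (chm a k2 k3 d V5 d23 d34 d34.symm e b O5).1
  have run15 : X.Av r0 q0 c2 → (∀ q', q' ≠ q0 → X.H r0 q' → X.c r0 q' ≠ c2) →
      X.Av r2 q2 c4 → (∀ r', r' ≠ r2 → X.H r' q2 → X.c r' q2 ≠ c4) → False := by
    intro a b d e
    have k2 : X.Av r1 q0 c3 := by
      rcases A2 with A2 | A2
      · exact A2
      · by_cases h : c1 = c3
        · rw [← h]; exact A2
        · exact (run12 a b A2 h).elim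
    have k3 : X.Av r1 q1 c4 := by
      rcases A3 with A3 | A3
      · by_cases h : c2 = c4
        · rw [← h]; exact A3
        · exact (run13 a b A3 h).elim
      · exact A3
    have k4 : X.Av r2 q1 c5 := by
      rcases A4 with A4 | A4
      · exact A4
      · by_cases h : c3 = c5
        · rw [← h]; exact A4
        · exact (run14 a b A4 h).elim
    exact d12.symm (chm a k2 k3 k4 d d23 d34 d45 d45.symm b e).1
  have run23 : X.Av r1 q0 c3 → c3 ≠ c1 → X.Av r1 q1 c2 → c2 ≠ c4 → False := by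
    intro a b d e
    exact d23.symm (chm V1 a d V4 V5 b.symm d23.symm e d45 O1 O5).2.1
  have run34 : X.Av r1 q1 c4 → c4 ≠ c2 → X.Av r2 q1 c3 → c3 ≠ c5 → False := by
    intro a b d e
    exact d34.symm (chm V1 V2 a d V5 d12 b.symm d34.symm e O1 O5).2.2.1
  have run35 : X.Av r1 q1 c4 → c4 ≠ c2 → X.Av r2 q2 c4 →
      (∀ r', r' ≠ r2 → X.H r' q2 → X.c r' q2 ≠ c4) → False := by
    intro a b d e
    have k4 : X.Av r2 q1 c5 := by
      rcases A4 with A4 | A4
      · exact A4
      · by_cases h : c3 = c5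
        · rw [← h]; exact A4
        · exact (run34 a b A4 h).elim
    exact d34.symm (chm V1 V2 a k4 d d12 b.symm d45 d45.symm O1 e).2.2.1
  -- slack consequences
  have S1 : ∀ a, X.Rep r0 q0 a → X.Av r0 q0 c2 ∧ (∀ q', q' ≠ q0 → X.H r0 q' → X.c r0 q' ≠ c2) := by
    intro a ha
    obtain ⟨_, e2, e3, _⟩ := X.rep_conseq h1 ha
    exact ⟨e2 r1 r01.symm h2, fun q' g1 g2 => e3 q' r1 g1 g2 r01.symm h2⟩
  have S2 : ∀ a, X.Rep r1 q0 a → X.Av r1 q0 c3 ∧ c3 ≠ c1 := by
    intro a ha
    obtain ⟨e1, e2, e3, _⟩ := X.rep_conseq h2 ha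
    exact ⟨e1 q1 q01.symm h3, e3 q1 r0 q01.symm h3 r01 h1⟩
  have S3 : ∀ a, X.Rep r1 q1 a → X.Av r1 q1 c2 ∧ X.Av r1 q1 c4 ∧ c2 ≠ c4 ∧ (∀ b, X.Rep r1 q1 b → b = a) := by
    intro a ha
    obtain ⟨e1, e2, e3, e4⟩ := X.rep_conseq h3 ha
    exact ⟨e1 q0 q01 h2, e2 r2 r12.symm h4, e3 q0 r2 q01 h2 r12.symm h4, e4⟩
  have S4 : ∀ a, X.Rep r2 q1 a → X.Av r2 q1 c3 ∧ c3 ≠ c5 := by
    intro a ha
    obtain ⟨e1, e2, e3, _⟩ := X.rep_conseq h4 ha
    exact ⟨e2 r1 r12 h3, (e3 q2 r1 q12.symm h5 r12 h3).symm⟩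
  have S5 : ∀ a, X.Rep r2 q2 a → X.Av r2 q2 c4 ∧ (∀ r', r' ≠ r2 → X.H r' q2 → X.c r' q2 ≠ c4) := by
    intro a ha
    obtain ⟨e1, _, e3, _⟩ := X.rep_conseq h5 ha
    exact ⟨e1 q1 q12 h4, fun r' g1 g2 => (e3 q1 r' q12 h4 g1 g2).symm⟩
  have hy : ¬ X.H r0 q1 := C1 r0 r01 r02
  have hz : ¬ X.H r1 q2 := R1 q2 q02.symm q12.symm
  have hx : ¬ X.H r2 q0 := C0 r2 r02.symm r12.symm
  -- the cell y
  have Y : X.c r0 q1 = c2 ∨ X.Rep r0 q0 (X.c r0 q1) ∨ X.Rep r1 q1 (X.c r0 q1) := by
    by_cases e : X.c r0 q1 = c2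
    · exact Or.inl e
    · right
      by_cases hav : X.Av r1 q0 (X.c r0 q1)
      · exfalso
        rcases X.blocked h2 hav e with ⟨q', g1, g2, g3⟩ | ⟨r', g1, g2, g3⟩
        · have : q' = q1 := by
            by_contra hne; exact R1 q' g1 hne g2
          subst this
          exact r01 (X.col q' g3).symm
        · have : r' = r0 := by
            by_contra hne; exact C0 r' hne g1 g2
          subst this
          exact q01 (X.row r' g3)
      · rcases X.not_av hav with ⟨q', g1, g2, g3⟩ | ⟨r', g1, g2, g3⟩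
        · right
          exact ⟨⟨q', fun h => g2 (h ▸ h3), g2, g3⟩, ⟨r0, r01, hy, rfl⟩⟩
        · left
          exact ⟨⟨q1, q01.symm, hy, rfl⟩, ⟨r', fun h => g2 (h ▸ h1), g2, g3⟩⟩
  have Z : X.c r1 q2 = c4 ∨ X.Rep r2 q2 (X.c r1 q2) ∨ X.Rep r1 q1 (X.c r1 q2) := by
    by_cases e : X.c r1 q2 = c4
    · exact Or.inl e
    · right
      by_cases hav : X.Av r2 q1 (X.c r1 q2)
      · exfalso
        rcases X.blocked h4 hav e with ⟨q', g1, g2, g3⟩ | ⟨r', g1, g2, g3⟩
        · have : q' = q2 := by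
            by_contra hne; exact R2 q' g1 hne g2
          subst this
          exact r12 (X.col q' g3).symm
        · have : r' = r1 := by
            by_contra hne; exact C1 r' hne g1 g2
          subst this
          exact q12 (X.row r' g3)
      · rcases X.not_av hav with ⟨q', g1, g2, g3⟩ | ⟨r', g1, g2, g3⟩
        · left
          exact ⟨⟨q', fun h => g2 (h ▸ h5), g2, g3⟩, ⟨r1, r12, hz, rfl⟩⟩
        · right
          exact ⟨⟨q2, q12.symm, hz, rfl⟩, ⟨r', fun h => g2 (h ▸ h3), g2, g3⟩⟩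
  have XX : X.c r2 q0 = c3 ∨ X.Rep r1 q0 (X.c r2 q0) ∨ X.Rep r2 q1 (X.c r2 q0) := by
    by_cases e : X.c r2 q0 = c3
    · exact Or.inl e
    · right
      by_cases hav : X.Av r1 q1 (X.c r2 q0)
      · exfalso
        rcases X.blocked h3 hav e with ⟨q', g1, g2, g3⟩ | ⟨r', g1, g2, g3⟩
        · have : q' = q0 := by
            by_contra hne; exact R1 q' hne g1 g2
          subst this
          exact r12 (X.col q' g3)
        · have : r' = r2 := by
            by_contra hne; exact C1 r' g1 hne g2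
          subst this
          exact q01 (X.row r' g3).symm
      · rcases X.not_av hav with ⟨q', g1, g2, g3⟩ | ⟨r', g1, g2, g3⟩
        · left
          exact ⟨⟨q', fun h => g2 (h ▸ h2), g2, g3⟩, ⟨r2, r12.symm, hx, rfl⟩⟩
        · right
          exact ⟨⟨q0, q01, hx, rfl⟩, ⟨r', fun h => g2 (h ▸ h4), g2, g3⟩⟩
  -- the core
  have core : X.Rep r1 q1 (X.c r0 q1) ∧ X.Rep r1 q1 (X.c r1 q2) := by
    rcases Y with Y | Y | Y
    · exfalso
      have nav : ¬ X.Av r1 q1 c2 := fun h => h.2 r0 r01 hy Y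
      have av4 : X.Av r1 q1 c4 := by
        rcases A3 with A3 | A3
        · exact (nav A3).elim
        · exact A3
      have n42 : c4 ≠ c2 := by
        rw [← Y]
        exact fun h => r02 (X.col q1 h).symm
      rcases Z with Z | Z | Z
      · exact av4.1 q2 q12.symm hz Z
      · obtain ⟨g1, g2⟩ := S5 _ Z
        exact run35 av4 n42 g1 g2
      · exact nav (S3 _ Z).1
    · exfalso
      obtain ⟨g1, g2⟩ := S1 _ Y
      rcases Z with Z | Z | Z
      · have nav : ¬ X.Av r1 q1 c4 := fun h => h.1 q2 q12.symm hz Z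
        have av2 : X.Av r1 q1 c2 := by
          rcases A3 with A3 | A3
          · exact A3
          · exact (nav A3).elim
        have n24 : c2 ≠ c4 := by
          rw [← Z]
          exact fun h => q02 (X.row r1 h)
        exact run13 g1 g2 av2 n24
      · obtain ⟨g3, g4⟩ := S5 _ Z
        exact run15 g1 g2 g3 g4
      · obtain ⟨g3, _, g4, _⟩ := S3 _ Z
        exact run13 g1 g2 g3 g4
    · refine ⟨Y, ?_⟩
      obtain ⟨g1, g2, g3, g4⟩ := S3 _ Y
      rcases Z with Z | Z | Z
      · exact (g2.1 q2 q12.symm hz Z).elim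
      · obtain ⟨g5, g6⟩ := S5 _ Z
        exact (run35 g2 g3.symm g5 g6).elim
      · exact Z
  obtain ⟨g1, g2, g3, g4⟩ := S3 _ core.1
  have N1 : ∀ a, ¬ X.Rep r0 q0 a := fun a ha => by
    obtain ⟨g5, g6⟩ := S1 _ ha
    exact run13 g5 g6 g1 g3
  have N2 : ∀ a, ¬ X.Rep r1 q0 a := fun a ha => by
    obtain ⟨g5, g6⟩ := S2 _ ha
    exact run23 g5 g6 g1 g3
  have N4 : ∀ a, ¬ X.Rep r2 q1 a := fun a ha => by
    obtain ⟨g5, g6⟩ := S4 _ ha
    exact run34 g2 g3.symm g5 g6
  have N5 : ∀ a, ¬ X.Rep r2 q2 a := fun a ha => by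
    obtain ⟨g5, g6⟩ := S5 _ ha
    exact run35 g2 g3.symm g5 g6
  refine ⟨core.1, N1, N2, N4, N5, ?_⟩
  rcases XX with h | h | h
  · exact h
  · exact (N2 _ h).elim
  · exact (N4 _ h).elim

theorem Config.no_chain (X : Config R C K) {r0 r1 r2 : R} {q0 q1 q2 : C} (ch : X.Chain r0 r1 r2 q0 q1 q2) :
    False := by
  obtain ⟨s3, n1, n2, n4, n5, x3⟩ := X.chain_conc ch
  have ch' := ch
  obtain ⟨r01, r02, r12, q01, q02, q12, h1, h2, h3, h4, h5⟩ := ch
  by_cases hw : X.H r0 q2
  · have := X.chain_conc (r0 := r1) (r1 := r2) (r2 := r0) (q0 := q1) (q1 := q2) (q2 := q0)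
      ⟨r12, r01.symm, r02.symm, q12, q01.symm, q02.symm, h3, h4, h5, hw, h1⟩
    exact n5 _ this.s3
  · have R1 := X.two_row q01 h2 h3
    have R2 := X.two_row q12 h4 h5
    have C0 := X.two_col r01 h1 h2
    have C1 := X.two_col r12 h3 h4
    have hx : ¬ X.H r2 q0 := C0 r2 r02.symm r12.symm
    obtain ⟨e1, e2, e3, e4⟩ := X.rep_conseq h3 s3
    have av2 := e1 q0 q01 h2
    have av4 := e2 r2 r12.symm h4
    have n24 := e3 q0 r2 q01 h2 r12.symm h4
    have P : X.c r0 q2 = X.c r1 q0 ∨ (∃ q', q' ≠ q1 ∧ ¬ X.H r1 q' ∧ X.c r1 q' = X.c r0 q2) := by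
      by_cases e : X.c r0 q2 = X.c r1 q0
      · exact Or.inl e
      · right
        by_cases hav : X.Av r1 q0 (X.c r0 q2)
        · exfalso
          rcases X.blocked h2 hav e with ⟨q', g1, g2, g3⟩ | ⟨r', g1, g2, g3⟩
          · have : q' = q1 := by
              by_contra hne; exact R1 q' g1 hne g2
            subst this
            exact hav.2 r2 r12.symm hx (by rw [x3, g3])
          · have : r' = r0 := by
              by_contra hne; exact C0 r' hne g1 g2
            subst this
            exact q02 (X.row r' g3)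
        · rcases X.not_av hav with ⟨q', g1, g2, g3⟩ | ⟨r', g1, g2, g3⟩
          · exact ⟨q', fun h => g2 (h ▸ h3), g2, g3⟩
          · exfalso
            exact n1 _ ⟨⟨q2, q02.symm, hw, rfl⟩, ⟨r', fun h => g2 (h ▸ h1), g2, g3⟩⟩
    have Q : X.c r0 q2 = X.c r2 q1 ∨ (∃ r', r' ≠ r1 ∧ ¬ X.H r' q1 ∧ X.c r' q1 = X.c r0 q2) := by
      by_cases e : X.c r0 q2 = X.c r2 q1
      · exact Or.inl e
      · right
        by_cases hav : X.Av r2 q1 (X.c r0 q2)
        · exfalso
          rcases X.blocked h4 hav e with ⟨q', g1, g2, g3⟩ | ⟨r', g1, g2, g3⟩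
          · have : q' = q2 := by
              by_contra hne; exact R2 q' g1 hne g2
            subst this
            exact r02 (X.col q' g3).symm
          · have : r' = r1 := by
              by_contra hne; exact C1 r' hne g1 g2
            subst this
            exact hav.1 q0 q01 hx (by rw [x3, g3])
        · rcases X.not_av hav with ⟨q', g1, g2, g3⟩ | ⟨r', g1, g2, g3⟩
          · exfalso
            exact n5 _ ⟨⟨q', fun h => g2 (h ▸ h5), g2, g3⟩, ⟨r0, r02, hw, rfl⟩⟩
          · exact ⟨r', fun h => g2 (h ▸ h3), g2, g3⟩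
    rcases P with P | ⟨q', p1, p2, p3⟩
    · rcases Q with Q | ⟨r', w1, w2, w3⟩
      · exact n24 (P.symm.trans Q)
      · exact av2.2 r' w1 w2 (w3.trans P)
    · rcases Q with Q | ⟨r', w1, w2, w3⟩
      · exact av4.1 q' p1 p2 (p3.trans Q)
      · have := e4 _ ⟨⟨q', p1, p2, p3⟩, ⟨r', w1, w2, w3⟩⟩
        exact q12 (X.row r0 this).symm

open Classical in
theorem Config.sq_mod (X : Config R C K) {r0 r1 : R} {q0 q1 : C} (r01 : r0 ≠ r1) (q01 : q0 ≠ q1)
    (h1 : X.H r0 q0) (h2 : X.H r1 q0) (h3 : X.H r1 q1) (h4 : X.H r0 q1)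
    {a1 a2 a3 a4 : K}
    (v1 : X.Av r0 q0 a1) (v2 : X.Av r1 q0 a2) (v3 : X.Av r1 q1 a3) (v4 : X.Av r0 q1 a4)
    (n12 : a1 ≠ a2) (n23 : a2 ≠ a3) (n34 : a3 ≠ a4) (n41 : a4 ≠ a1) :
    a1 = X.c r0 q0 ∧ a2 = X.c r1 q0 ∧ a3 = X.c r1 q1 ∧ a4 = X.c r0 q1 := by
  have R0 := X.two_row q01 h1 h4
  have R1 := X.two_row q01 h2 h3
  have C0 := X.two_col r01 h1 h2
  have C1 := X.two_col r01 h4 h3
  let g : R → C → K := fun r q => if r = r0 ∧ q = q0 then a1 else if r = r1 ∧ q = q0 then a2 else
    if r = r1 ∧ q = q1 then a3 else if r = r0 ∧ q = q1 then a4 else X.c r q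
  have g1 : g r0 q0 = a1 := by simp [g]
  have g2 : g r1 q0 = a2 := by simp [g, r01.symm]
  have g3 : g r1 q1 = a3 := by simp [g, r01.symm, q01.symm]
  have g4 : g r0 q1 = a4 := by simp [g, q01.symm, r01]
  have g0 : ∀ r q, ¬ (r = r0 ∧ q = q0) → ¬ (r = r1 ∧ q = q0) → ¬ (r = r1 ∧ q = q1) → ¬ (r = r0 ∧ q = q1) →
      g r q = X.c r q := by
    intro r q e1 e2 e3 e4
    simp only [g, if_neg e1, if_neg e2, if_neg e3, if_neg e4]
  have hg : ∀ r q, g r q ≠ X.c r q → (r = r0 ∧ q = q0) ∨ (r = r1 ∧ q = q0) ∨ (r = r1 ∧ q = q1) ∨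
      (r = r0 ∧ q = q1) := by
    intro r q h
    by_contra hcon
    push Not at hcon
    exact h (g0 r q (fun e => hcon.1 e.1 e.2) (fun e => hcon.2.1 e.1 e.2) (fun e => hcon.2.2.1 e.1 e.2)
      (fun e => hcon.2.2.2 e.1 e.2))
  have gr0 : ∀ q', q' ≠ q0 → q' ≠ q1 → g r0 q' = X.c r0 q' := by
    intro q' e e'; simp [g, e, e']
  have gr1 : ∀ q', q' ≠ q0 → q' ≠ q1 → g r1 q' = X.c r1 q' := by
    intro q' e e'; simp [g, e, e']
  have gc0 : ∀ r', r' ≠ r0 → r' ≠ r1 → g r' q0 = X.c r' q0 := by
    intro q' e e'; simp [g, e, e']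
  have gc1 : ∀ r', r' ≠ r0 → r' ≠ r1 → g r' q1 = X.c r' q1 := by
    intro q' e e'; simp [g, e, e']
  have key : g = X.c := by
    apply X.mod
    · intro r q h
      rcases hg r q h with ⟨rfl, rfl⟩ | ⟨rfl, rfl⟩ | ⟨rfl, rfl⟩ | ⟨rfl, rfl⟩ <;> assumption
    · intro r q h q' hq
      rcases hg r q h with ⟨rfl, rfl⟩ | ⟨rfl, rfl⟩ | ⟨rfl, rfl⟩ | ⟨rfl, rfl⟩
      · rw [g1]
        by_cases e : q' = q1
        · subst e; rw [g4]; exact n41
        · rw [gr0 q' hq e]; exact v1.1 q' hq (R0 q' hq e)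
      · rw [g2]
        by_cases e : q' = q1
        · subst e; rw [g3]; exact n23.symm
        · rw [gr1 q' hq e]; exact v2.1 q' hq (R1 q' hq e)
      · rw [g3]
        by_cases e : q' = q0
        · subst e; rw [g2]; exact n23
        · rw [gr1 q' e hq]; exact v3.1 q' hq (R1 q' e hq)
      · rw [g4]
        by_cases e : q' = q0
        · subst e; rw [g1]; exact n41.symm
        · rw [gr0 q' e hq]; exact v4.1 q' hq (R0 q' e hq)
    · intro r q h r' hr
      rcases hg r q h with ⟨rfl, rfl⟩ | ⟨rfl, rfl⟩ | ⟨rfl, rfl⟩ | ⟨rfl, rfl⟩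
      · rw [g1]
        by_cases e : r' = r1
        · subst e; rw [g2]; exact n12.symm
        · rw [gc0 r' hr e]; exact v1.2 r' hr (C0 r' hr e)
      · rw [g2]
        by_cases e : r' = r0
        · subst e; rw [g1]; exact n12
        · rw [gc0 r' e hr]; exact v2.2 r' hr (C0 r' e hr)
      · rw [g3]
        by_cases e : r' = r0
        · subst e; rw [g4]; exact n34.symm
        · rw [gc1 r' e hr]; exact v3.2 r' hr (C1 r' e hr)
      · rw [g4]
        by_cases e : r' = r1
        · subst e; rw [g3]; exact n34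
        · rw [gc1 r' hr e]; exact v4.2 r' hr (C1 r' hr e)
  rw [key] at g1 g2 g3 g4
  exact ⟨g1.symm, g2.symm, g3.symm, g4.symm⟩

theorem Config.no_square (X : Config R C K) {r0 r1 : R} {q0 q1 : C} (r01 : r0 ≠ r1) (q01 : q0 ≠ q1)
    (h1 : X.H r0 q0) (h2 : X.H r1 q0) (h3 : X.H r1 q1) (h4 : X.H r0 q1) : False := by
  have M := @Config.sq_mod _ _ _ _ _ _ X _ _ _ _ r01 q01 h1 h2 h3 h4
  have V1 := X.av_self r0 q0
  have V2 := X.av_self r1 q0
  have V3 := X.av_self r1 q1
  have V4 := X.av_self r0 q1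
  have d12 : X.c r0 q0 ≠ X.c r1 q0 := fun h => r01 (X.col q0 h)
  have d23 : X.c r1 q0 ≠ X.c r1 q1 := fun h => q01 (X.row r1 h)
  have d34 : X.c r1 q1 ≠ X.c r0 q1 := fun h => r01 (X.col q1 h).symm
  have d41 : X.c r0 q1 ≠ X.c r0 q0 := fun h => q01 (X.row r0 h).symm
  have A1 := X.interior h1 r01.symm q01.symm h4 h2
  have A2 := X.interior h2 r01 q01.symm h3 h1
  have A3 := X.interior h3 r01 q01 h2 h4
  have A4 := X.interior h4 r01.symm q01 h1 h3
  set c1 := X.c r0 q0 with hc1
  set c2 := X.c r1 q0 with hc2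
  set c3 := X.c r1 q1 with hc3
  set c4 := X.c r0 q1 with hc4
  by_cases h13 : c1 = c3
  · rw [← h13] at A2 A4 d23 d34
    have B2 : X.Av r1 q0 c1 := by rcases A2 with h | h <;> exact h
    have B4 : X.Av r0 q1 c1 := by rcases A4 with h | h <;> exact h
    by_cases h24 : c2 = c4
    · rw [← h24] at A1 A3
      have B1 : X.Av r0 q0 c2 := by rcases A1 with h | h <;> exact h
      have B3 : X.Av r1 q1 c2 := by rcases A3 with h | h <;> exact h
      exact d12.symm (M B1 B2 B3 B4 d12.symm d12 d12.symm d12).1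
    · rcases A1 with A1 | A1
      · rcases A3 with A3 | A3
        · exact d41 (M A1 B2 A3 B4 d41 d12 d12.symm d41.symm).1
        · exact d41 (M A1 V2 A3 B4 (Ne.symm h24) h24 d41 d41.symm).1
      · rcases A3 with A3 | A3
        · exact d12.symm (M A1 B2 A3 V4 d12.symm d12 h24 (Ne.symm h24)).1
        · exact d12.symm (M A1 B2 A3 B4 d12.symm d41.symm d41 d12).1
  · by_cases h24 : c2 = c4
    · rw [← h24] at A1 A3 d34 d41
      have B1 : X.Av r0 q0 c2 := by rcases A1 with h | h <;> exact h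
      have B3 : X.Av r1 q1 c2 := by rcases A3 with h | h <;> exact h
      rcases A2 with A2 | A2
      · rcases A4 with A4 | A4
        · exact d12.symm (M B1 A2 B3 A4 d23 d23.symm d12.symm d12).1
        · exact d23 (M V1 A2 B3 A4 h13 d23.symm d23 (Ne.symm h13)).2.2.1
      · rcases A4 with A4 | A4
        · exact d12.symm (M B1 A2 V3 A4 d12.symm h13 (Ne.symm h13) d12).1
        · exact d12.symm (M B1 A2 B3 A4 d12.symm d12 d23 d23.symm).1
    · rcases A1 with A1 | A1
      · -- Av1 c4
        rcases A4 with A4 | A4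
        · exact d41 (M A1 V2 V3 A4 (Ne.symm h24) d23 (Ne.symm h13) d41.symm).1
        · rcases A3 with A3 | A3
          · rcases A2 with A2 | A2
            · exact d23.symm (M V1 A2 A3 V4 h13 d23.symm h24 d41).2.1
            · exact d41 (M A1 A2 A3 A4 d41 d12 d23 d34).1
          · exact d34.symm (M V1 V2 A3 A4 d12 h24 d34.symm (Ne.symm h13)).2.2.1
      · rcases A2 with A2 | A2
        · rcases A3 with A3 | A3
          · exact d23.symm (M V1 A2 A3 V4 h13 d23.symm h24 d41).2.1
          · rcases A4 with A4 | A4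
            · exact d12.symm (M A1 A2 A3 A4 d23 d34 d41 d12).1
            · exact d34.symm (M V1 V2 A3 A4 d12 h24 d34.symm (Ne.symm h13)).2.2.1
        · exact d12.symm (M A1 A2 V3 V4 d12.symm h13 d34 (Ne.symm h24)).1

open Classical in
noncomputable def Config.HF (X : Config R C K) : Finset (R × C) := univ.filter (fun e => X.H e.1 e.2)

theorem Config.mem_HF (X : Config R C K) {e : R × C} : e ∈ X.HF ↔ X.H e.1 e.2 := by
  classical
  unfold Config.HF
  simp

def Config.RA (X : Config R C K) (e : R × C) : Prop := ∀ q', q' ≠ e.2 → ¬ X.H e.1 q'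
def Config.CA (X : Config R C K) (e : R × C) : Prop := ∀ r', r' ≠ e.1 → ¬ X.H r' e.2

open Classical in
theorem Config.row_sum (X : Config R C K) :
    ∑ e ∈ X.HF, (if X.RA e then 2 else 1) ≤ 2 * Fintype.card R := by
  have h1 : ∑ e ∈ X.HF, (if X.RA e then 2 else 1) =
      ∑ r : R, ∑ q ∈ univ.filter (fun q => X.H r q), (if X.RA (r, q) then 2 else 1) := by
    unfold Config.HF
    rw [sum_filter, Fintype.sum_prod_type]
    apply sum_congr rfl
    intro r _
    rw [sum_filter]
  rw [h1]
  calc ∑ r : R, ∑ q ∈ univ.filter (fun q => X.H r q), (if X.RA (r, q) then 2 else 1)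
      ≤ ∑ _r : R, 2 := by
        apply sum_le_sum
        intro r _
        rcases Nat.lt_or_ge 1 (univ.filter (fun q => X.H r q)).card with h | h
        · obtain ⟨a, ha, b, hb, hab⟩ := one_lt_card.mp h
          rw [mem_filter] at ha hb
          have hS : univ.filter (fun q => X.H r q) = {a, b} := by
            ext x
            simp only [mem_filter, mem_univ, true_and, mem_insert, mem_singleton]
            constructor
            · intro hx
              by_contra hcon
              push Not at hcon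
              exact X.two_row hab ha.2 hb.2 x hcon.1 hcon.2 hx
            · rintro (rfl | rfl)
              · exact ha.2
              · exact hb.2
          rw [hS, sum_pair hab]
          have e1 : ¬ X.RA (r, a) := fun h => h b hab.symm hb.2
          have e2 : ¬ X.RA (r, b) := fun h => h a hab ha.2
          rw [if_neg e1, if_neg e2]
        · calc ∑ q ∈ univ.filter (fun q => X.H r q), (if X.RA (r, q) then 2 else 1)
              ≤ ∑ _q ∈ univ.filter (fun q => X.H r q), 2 := by
                apply sum_le_sum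
                intro q _
                split_ifs <;> omega
            _ ≤ 2 := by
                rw [sum_const, smul_eq_mul]
                omega
    _ = 2 * Fintype.card R := by
        rw [sum_const, card_univ, smul_eq_mul, mul_comm]

open Classical in
theorem Config.col_sum (X : Config R C K) :
    ∑ e ∈ X.HF, (if X.CA e then 2 else 1) ≤ 2 * Fintype.card C := by
  have h := X.tr.row_sum
  have h2 : ∑ e ∈ X.tr.HF, (if X.tr.RA e then 2 else 1) = ∑ e ∈ X.HF, (if X.CA e then 2 else 1) := by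
    refine sum_bij' (fun e _ => e.swap) (fun e _ => e.swap) ?_ ?_ ?_ ?_ ?_
    · intro e he
      rw [Config.mem_HF] at he ⊢
      exact he
    · intro e he
      rw [Config.mem_HF] at he ⊢
      exact he
    · intro e _; rfl
    · intro e _; rfl
    · intro e _
      rfl
  rw [h2] at h
  exact h

open Classical in
theorem Config.inner_le_end (X : Config R C K) :
    (X.HF.filter (fun e => ¬ X.RA e ∧ ¬ X.CA e)).card ≤
      (X.HF.filter (fun e => (X.RA e ∧ ¬ X.CA e) ∨ (¬ X.RA e ∧ X.CA e))).card := by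
  have hex : ∀ e : R × C, e ∈ X.HF.filter (fun e => ¬ X.RA e ∧ ¬ X.CA e) →
      ∃ w ∈ X.HF.filter (fun e => (X.RA e ∧ ¬ X.CA e) ∨ (¬ X.RA e ∧ X.CA e)),
        (e.1 = w.1 ∧ e.2 ≠ w.2) ∨ (e.1 ≠ w.1 ∧ e.2 = w.2) := by
    rintro ⟨r, q⟩ he
    rw [mem_filter, X.mem_HF] at he
    obtain ⟨h0, h1, h2⟩ := he
    unfold Config.RA at h1
    unfold Config.CA at h2
    push Not at h1 h2
    obtain ⟨q', hq', hH1⟩ := h1
    obtain ⟨r', hr', hH2⟩ := h2
    by_cases c1 : X.CA (r, q')
    · refine ⟨(r, q'), ?_, Or.inl ⟨rfl, hq'.symm⟩⟩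
      rw [mem_filter, X.mem_HF]
      exact ⟨hH1, Or.inr ⟨fun h => h q hq'.symm h0, c1⟩⟩
    · by_cases c2 : X.RA (r', q)
      · refine ⟨(r', q), ?_, Or.inr ⟨hr'.symm, rfl⟩⟩
        rw [mem_filter, X.mem_HF]
        exact ⟨hH2, Or.inl ⟨c2, fun h => h r hr'.symm h0⟩⟩
      · exfalso
        unfold Config.CA at c1
        unfold Config.RA at c2
        push Not at c1 c2
        obtain ⟨r'', hr'', g1⟩ := c1
        obtain ⟨q'', hq'', g2⟩ := c2
        have n1 : r'' ≠ r' := by
          rintro rfl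
          exact X.no_square hr''.symm hq' hH1 g1 hH2 h0
        have n2 : q' ≠ q'' := by
          rintro rfl
          exact X.no_square hr'.symm hq' hH1 g2 hH2 h0
        exact X.no_chain (r0 := r'') (r1 := r) (r2 := r') (q0 := q') (q1 := q) (q2 := q'')
          ⟨hr'', n1, hr'.symm, hq', n2, hq''.symm, g1, hH1, h0, hH2, g2⟩
  choose! f hf1 hf2 using hex
  apply card_le_card_of_injOn f
  · intro e he
    exact hf1 e he
  · intro e he e' he' hee
    have a1 := hf1 e he
    have a2 := hf2 e he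
    have b2 := hf2 e' he'
    rw [← hee] at b2
    have he2 : X.H e.1 e.2 := X.mem_HF.mp (mem_filter.mp (mem_coe.mp he)).1
    have he3 : X.H e'.1 e'.2 := X.mem_HF.mp (mem_filter.mp (mem_coe.mp he')).1
    set w := f e with hw
    obtain ⟨aw, bw⟩ := mem_filter.mp a1
    have hw2 : X.H w.1 w.2 := X.mem_HF.mp aw
    rcases bw with ⟨ra, _⟩ | ⟨_, ca⟩
    · rcases a2 with ⟨e1, e2⟩ | ⟨e1, e2⟩
      · exact absurd (e1 ▸ he2) (ra e.2 e2)
      · rcases b2 with ⟨e3, e4⟩ | ⟨e3, e4⟩
        · exact absurd (e3 ▸ he3) (ra e'.2 e4)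
        · have : e'.1 = e.1 := by
            by_contra hne
            exact X.two_col (Ne.symm e1) hw2 (e2 ▸ he2) e'.1 e3 hne (e4 ▸ he3)
          exact Prod.ext this.symm (by rw [e2, e4])
    · rcases a2 with ⟨e1, e2⟩ | ⟨e1, e2⟩
      · rcases b2 with ⟨e3, e4⟩ | ⟨e3, e4⟩
        · have : e'.2 = e.2 := by
            by_contra hne
            exact X.two_row (Ne.symm e2) hw2 (e1 ▸ he2) e'.2 e4 hne (e3 ▸ he3)
          exact Prod.ext (by rw [e1, e3]) this.symm
        · exact absurd (e4 ▸ he3) (ca e'.1 e3)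
      · exact absurd (e2 ▸ he2) (ca e.1 e1)

open Classical in
theorem Config.bound (X : Config R C K) : 5 * X.HF.card ≤ 4 * (Fintype.card R + Fintype.card C) := by
  have h1 := X.row_sum
  have h2 := X.col_sum
  have h3 := X.inner_le_end
  rw [card_filter, card_filter] at h3
  have h4 : ∑ e ∈ X.HF, (5 + (if (X.RA e ∧ ¬ X.CA e) ∨ (¬ X.RA e ∧ X.CA e) then 1 else 0)) ≤
      ∑ e ∈ X.HF, (2 * (if X.RA e then 2 else 1) + 2 * (if X.CA e then 2 else 1)
        + (if ¬ X.RA e ∧ ¬ X.CA e then 1 else 0)) := by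
    apply sum_le_sum
    intro e _
    by_cases a : X.RA e <;> by_cases b : X.CA e <;> simp [a, b]
  rw [sum_add_distrib, sum_add_distrib, sum_add_distrib, ← mul_sum, ← mul_sum, sum_const, smul_eq_mul] at h4
  omega

def base5 : ZMod 5 → ZMod 5 → Fin 8 := fun i j =>
  (![![0, 1, 3, 4, 5], ![1, 2, 4, 5, 3], ![2, 0, 5, 3, 4], ![6, 7, 0, 1, 2], ![7, 6, 1, 2, 0]] :
    Fin 5 → Fin 5 → Fin 8) i j

def free5 : Finset (ZMod 5 × ZMod 5) :=
  {(0, 0), (1, 0), (1, 1), (2, 1), (3, 2), (3, 3), (4, 3), (4, 4)}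

theorem free5_card : free5.card = 8 := by decide

theorem base5_row : ∀ i, Injective (base5 i) := by
  unfold Injective; decide

theorem base5_col : ∀ j, Injective (fun i => base5 i j) := by
  unfold Injective; decide

theorem base5_rigid (g : ZMod 5 → ZMod 5 → Fin 8) (hr : ∀ i, Injective (g i))
    (hc : ∀ j, Injective (fun i => g i j)) (hg : ∀ i j, (i, j) ∉ free5 → g i j = base5 i j) :
    g = base5 := by
  have R : ∀ i j j', j ≠ j' → g i j ≠ g i j' := fun i j j' h e => h (hr i e)
  have Cc : ∀ i i' j, i ≠ i' → g i j ≠ g i' j := fun i i' j h e => h (hc j e)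
  have e : ∀ i j, (i, j) ∉ free5 → g i j = base5 i j := hg
  have k01 : g 0 1 = 1 := e 0 1 (by decide)
  have k02 : g 0 2 = 3 := e 0 2 (by decide)
  have k03 : g 0 3 = 4 := e 0 3 (by decide)
  have k04 : g 0 4 = 5 := e 0 4 (by decide)
  have k12 : g 1 2 = 4 := e 1 2 (by decide)
  have k13 : g 1 3 = 5 := e 1 3 (by decide)
  have k14 : g 1 4 = 3 := e 1 4 (by decide)
  have k20 : g 2 0 = 2 := e 2 0 (by decide)
  have k22 : g 2 2 = 5 := e 2 2 (by decide)
  have k23 : g 2 3 = 3 := e 2 3 (by decide)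
  have k24 : g 2 4 = 4 := e 2 4 (by decide)
  have k30 : g 3 0 = 6 := e 3 0 (by decide)
  have k31 : g 3 1 = 7 := e 3 1 (by decide)
  have k34 : g 3 4 = 2 := e 3 4 (by decide)
  have k40 : g 4 0 = 7 := e 4 0 (by decide)
  have k41 : g 4 1 = 6 := e 4 1 (by decide)
  have k42 : g 4 2 = 1 := e 4 2 (by decide)
  have D : ∀ x : Fin 8, x ≠ 1 → x ≠ 2 → x ≠ 3 → x ≠ 4 → x ≠ 5 → x ≠ 6 → x ≠ 7 → x = 0 := by
    intro x; fin_cases x <;> simp
  have D1 : ∀ x : Fin 8, x ≠ 0 → x ≠ 2 → x ≠ 3 → x ≠ 4 → x ≠ 5 → x ≠ 6 → x ≠ 7 → x = 1 := by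
    intro x; fin_cases x <;> simp
  have D2 : ∀ x : Fin 8, x ≠ 0 → x ≠ 1 → x ≠ 3 → x ≠ 4 → x ≠ 5 → x ≠ 6 → x ≠ 7 → x = 2 := by
    intro x; fin_cases x <;> simp
  have k00 : g 0 0 = 0 := D _ (k01 ▸ R 0 0 1 (by decide)) (k20 ▸ Cc 0 2 0 (by decide))
    (k02 ▸ R 0 0 2 (by decide)) (k03 ▸ R 0 0 3 (by decide)) (k04 ▸ R 0 0 4 (by decide))
    (k30 ▸ Cc 0 3 0 (by decide)) (k40 ▸ Cc 0 4 0 (by decide))
  have k21 : g 2 1 = 0 := D _ (k01 ▸ Cc 2 0 1 (by decide)) (k20 ▸ R 2 1 0 (by decide))
    (k23 ▸ R 2 1 3 (by decide)) (k24 ▸ R 2 1 4 (by decide)) (k22 ▸ R 2 1 2 (by decide))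
    (k41 ▸ Cc 2 4 1 (by decide)) (k31 ▸ Cc 2 3 1 (by decide))
  have k10 : g 1 0 = 1 := D1 _ (k00 ▸ Cc 1 0 0 (by decide)) (k20 ▸ Cc 1 2 0 (by decide))
    (k14 ▸ R 1 0 4 (by decide)) (k12 ▸ R 1 0 2 (by decide)) (k13 ▸ R 1 0 3 (by decide))
    (k30 ▸ Cc 1 3 0 (by decide)) (k40 ▸ Cc 1 4 0 (by decide))
  have k11 : g 1 1 = 2 := D2 _ (k21 ▸ Cc 1 2 1 (by decide)) (k10 ▸ R 1 1 0 (by decide))
    (k14 ▸ R 1 1 4 (by decide)) (k12 ▸ R 1 1 2 (by decide)) (k13 ▸ R 1 1 3 (by decide))
    (k41 ▸ Cc 1 4 1 (by decide)) (k31 ▸ Cc 1 3 1 (by decide))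
  have k32 : g 3 2 = 0 := D _ (k42 ▸ Cc 3 4 2 (by decide)) (k34 ▸ R 3 2 4 (by decide))
    (k02 ▸ Cc 3 0 2 (by decide)) (k12 ▸ Cc 3 1 2 (by decide)) (k22 ▸ Cc 3 2 2 (by decide))
    (k30 ▸ R 3 2 0 (by decide)) (k31 ▸ R 3 2 1 (by decide))
  have k44 : g 4 4 = 0 := D _ (k42 ▸ R 4 4 2 (by decide)) (k34 ▸ Cc 4 3 4 (by decide))
    (k14 ▸ Cc 4 1 4 (by decide)) (k24 ▸ Cc 4 2 4 (by decide)) (k04 ▸ Cc 4 0 4 (by decide))
    (k41 ▸ R 4 4 1 (by decide)) (k40 ▸ R 4 4 0 (by decide))
  have k33 : g 3 3 = 1 := D1 _ (k32 ▸ R 3 3 2 (by decide)) (k34 ▸ R 3 3 4 (by decide))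
    (k23 ▸ Cc 3 2 3 (by decide)) (k03 ▸ Cc 3 0 3 (by decide)) (k13 ▸ Cc 3 1 3 (by decide))
    (k30 ▸ R 3 3 0 (by decide)) (k31 ▸ R 3 3 1 (by decide))
  have k43 : g 4 3 = 2 := D2 _ (k44 ▸ R 4 3 4 (by decide)) (k42 ▸ R 4 3 2 (by decide))
    (k23 ▸ Cc 4 2 3 (by decide)) (k03 ▸ Cc 4 0 3 (by decide)) (k13 ▸ Cc 4 1 3 (by decide))
    (k41 ▸ R 4 3 1 (by decide)) (k40 ▸ R 4 3 0 (by decide))
  funext i j
  by_cases h : (i, j) ∈ free5
  · simp only [free5, mem_insert, mem_singleton, Prod.mk.injEq] at h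
    rcases h with ⟨rfl, rfl⟩ | ⟨rfl, rfl⟩ | ⟨rfl, rfl⟩ | ⟨rfl, rfl⟩ | ⟨rfl, rfl⟩ | ⟨rfl, rfl⟩ | ⟨rfl, rfl⟩ | ⟨rfl, rfl⟩
    · rw [k00]; rfl
    · rw [k10]; rfl
    · rw [k11]; rfl
    · rw [k21]; rfl
    · rw [k32]; rfl
    · rw [k33]; rfl
    · rw [k43]; rfl
    · rw [k44]; rfl
  · exact hg i j h

structure Plan (V F A : Type*) where
  f : V → V → F
  o : V → V → Bool
  s : A → V ≃ V
  h : A → ZMod 5
  p : V → Bool
  L : A → A → A
  f_symm : ∀ u v, f u v = f v u
  f_inj : ∀ u v v', v ≠ u → v' ≠ u → f u v = f u v' → v = v'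
  f_surj : ∀ u φ, ∃ v, v ≠ u ∧ f u v = φ
  o_anti : ∀ u v, u ≠ v → o v u = !o u v
  s_ne : ∀ a u, s a u ≠ u
  s_inj : ∀ a u v, f u (s a u) = f v (s a v) → o u (s a u) = o v (s a v) → u = v
  s_disj : ∀ a b u, s a u = s b u → h a = h b → a = b
  p_flip : ∀ a u, p (s a u) = !p u
  L_row : ∀ a, Injective (L a)
  L_col : ∀ b, Injective (fun a => L a b)

variable {V F A : Type*}

abbrev Idx (V A : Type*) := (V × ZMod 5) ⊕ A
abbrev Col (F A : Type*) := (F × Bool × ZMod 5) ⊕ (Fin 8 ⊕ (A × Bool))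

open Classical in
noncomputable def Plan.Phi (P : Plan V F A) : Idx V A → Idx V A → Col F A
  | .inl (u, i), .inl (v, j) => if u = v then .inr (.inl (base5 i j)) else
      if h : ∃ a, v = P.s a u ∧ j = i + P.h a then .inr (.inr (h.choose, P.p u))
      else .inl (P.f u v, P.o u v, i + j)
  | .inl (u, i), .inr a => .inl (P.f u (P.s a u), P.o u (P.s a u), i + (i + P.h a))
  | .inr a, .inl (v, j) => .inl (P.f ((P.s a).symm v) v, P.o ((P.s a).symm v) v, (j - P.h a) + j)
  | .inr a, .inr b => .inr (.inr (P.L a b, true))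

theorem Plan.phi_same (P : Plan V F A) (u : V) (i j : ZMod 5) :
    P.Phi (.inl (u, i)) (.inl (u, j)) = .inr (.inl (base5 i j)) := by
  simp [Plan.Phi]

theorem Plan.phi_cases (P : Plan V F A) {u v : V} (i j : ZMod 5) (huv : u ≠ v) :
    (∃ a, v = P.s a u ∧ j = i + P.h a ∧ P.Phi (.inl (u, i)) (.inl (v, j)) = .inr (.inr (a, P.p u))) ∨
    ((∀ a, ¬ (v = P.s a u ∧ j = i + P.h a)) ∧
      P.Phi (.inl (u, i)) (.inl (v, j)) = .inl (P.f u v, P.o u v, i + j)) := by
  by_cases h : ∃ a, v = P.s a u ∧ j = i + P.h a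
  · left
    refine ⟨h.choose, h.choose_spec.1, h.choose_spec.2, ?_⟩
    simp only [Plan.Phi, if_neg huv, dif_pos h]
  · right
    refine ⟨fun a ha => h ⟨a, ha⟩, ?_⟩
    simp only [Plan.Phi, if_neg huv, dif_neg h]

theorem Plan.phi_T (P : Plan V F A) (a : A) (u : V) (i : ZMod 5) :
    P.Phi (.inl (u, i)) (.inl (P.s a u, i + P.h a)) = .inr (.inr (a, P.p u)) := by
  rcases P.phi_cases i (i + P.h a) (P.s_ne a u).symm with ⟨b, h1, h2, h3⟩ | ⟨h1, _⟩
  · have h4 : P.h a = P.h b := by simpa using h2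
    have := P.s_disj a b u h1 h4
    rw [h3, this]
  · exact absurd ⟨rfl, rfl⟩ (h1 a)

theorem Plan.phi_inr_left (P : Plan V F A) (a : A) (v : V) (j : ZMod 5) :
    P.Phi (.inr a) (.inl (v, j)) =
      .inl (P.f ((P.s a).symm v) v, P.o ((P.s a).symm v) v, (j - P.h a) + j) := rfl

theorem Plan.phi_inr_right (P : Plan V F A) (a : A) (u : V) (i : ZMod 5) :
    P.Phi (.inl (u, i)) (.inr a) =
      .inl (P.f u (P.s a u), P.o u (P.s a u), i + (i + P.h a)) := rfl

theorem Plan.phi_corner (P : Plan V F A) (a b : A) :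
    P.Phi (.inr a) (.inr b) = .inr (.inr (P.L a b, true)) := rfl

theorem Plan.symm_ne (P : Plan V F A) (a : A) (v : V) : (P.s a).symm v ≠ v := by
  intro h
  have := P.s_ne a ((P.s a).symm v)
  rw [Equiv.apply_symm_apply] at this
  exact this h.symm

theorem Plan.row_inj (P : Plan V F A) (x : Idx V A) : Injective (P.Phi x) := by
  have Z1 : ∀ i j h : ZMod 5, i + j = i + (i + h) → j = i + h := by decide
  have Z2 : ∀ h j j' : ZMod 5, (j - h) + j = (j' - h) + j' → j = j' := by decide
  have Z3 : ∀ i h h' : ZMod 5, i + (i + h) = i + (i + h') → h = h' := by decide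
  rcases x with ⟨u, i⟩ | a
  · rintro (⟨v, j⟩ | b) (⟨v', j'⟩ | b') he
    · by_cases h1 : u = v
      · subst h1
        rw [P.phi_same] at he
        by_cases h2 : u = v'
        · subst h2
          rw [P.phi_same] at he
          simp only [Sum.inr.injEq, Sum.inl.injEq] at he
          rw [base5_row i he]
        · rcases P.phi_cases i j' h2 with ⟨c, _, _, h3⟩ | ⟨_, h3⟩ <;> rw [h3] at he <;> simp at he
      · rcases P.phi_cases i j h1 with ⟨c, g1, g2, h3⟩ | ⟨g1, h3⟩
        · rw [h3] at he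
          by_cases h2 : u = v'
          · subst h2
            rw [P.phi_same] at he
            simp at he
          · rcases P.phi_cases i j' h2 with ⟨d, g3, g4, h4⟩ | ⟨_, h4⟩
            · rw [h4] at he
              simp only [Sum.inr.injEq, Prod.mk.injEq, and_true] at he
              subst he
              rw [g1, g2, g3, g4]
            · rw [h4] at he; simp at he
        · rw [h3] at he
          by_cases h2 : u = v'
          · subst h2
            rw [P.phi_same] at he
            simp at he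
          · rcases P.phi_cases i j' h2 with ⟨d, g3, g4, h4⟩ | ⟨_, h4⟩
            · rw [h4] at he; simp at he
            · rw [h4] at he
              simp only [Sum.inl.injEq, Prod.mk.injEq, add_right_inj] at he
              rw [P.f_inj u v v' (Ne.symm h1) (Ne.symm h2) he.1, he.2.2]
    · rw [P.phi_inr_right] at he
      by_cases h1 : u = v
      · subst h1
        rw [P.phi_same] at he
        simp at he
      · rcases P.phi_cases i j h1 with ⟨c, g1, g2, h3⟩ | ⟨g1, h3⟩
        · rw [h3] at he; simp at he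
        · rw [h3] at he
          simp only [Sum.inl.injEq, Prod.mk.injEq] at he
          exact absurd ⟨P.f_inj u v _ (Ne.symm h1) (P.s_ne b' u) he.1, Z1 _ _ _ he.2.2⟩ (g1 b')
    · rw [P.phi_inr_right] at he
      by_cases h1 : u = v'
      · subst h1
        rw [P.phi_same] at he
        simp at he
      · rcases P.phi_cases i j' h1 with ⟨c, g1, g2, h3⟩ | ⟨g1, h3⟩
        · rw [h3] at he; simp at he
        · rw [h3] at he
          simp only [Sum.inl.injEq, Prod.mk.injEq] at he
          exact absurd ⟨P.f_inj u v' _ (Ne.symm h1) (P.s_ne b u) he.1.symm, Z1 _ _ _ he.2.2.symm⟩ (g1 b)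
    · rw [P.phi_inr_right, P.phi_inr_right] at he
      simp only [Sum.inl.injEq, Prod.mk.injEq] at he
      rw [P.s_disj b b' u (P.f_inj u _ _ (P.s_ne b u) (P.s_ne b' u) he.1) (Z3 _ _ _ he.2.2)]
  · rintro (⟨v, j⟩ | b) (⟨v', j'⟩ | b') he
    · rw [P.phi_inr_left, P.phi_inr_left] at he
      simp only [Sum.inl.injEq, Prod.mk.injEq] at he
      obtain ⟨h1, h2, h3⟩ := he
      have h4 : (P.s a).symm v = (P.s a).symm v' := by
        apply P.s_inj a
        · rw [Equiv.apply_symm_apply, Equiv.apply_symm_apply]; exact h1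
        · rw [Equiv.apply_symm_apply, Equiv.apply_symm_apply]; exact h2
      rw [(P.s a).symm.injective h4, Z2 _ _ _ h3]
    · rw [P.phi_inr_left, P.phi_corner] at he; simp at he
    · rw [P.phi_inr_left, P.phi_corner] at he; simp at he
    · rw [P.phi_corner, P.phi_corner] at he
      simp only [Sum.inr.injEq, Prod.mk.injEq, and_true] at he
      rw [P.L_row a he]

theorem Plan.col_inj (P : Plan V F A) (y : Idx V A) : Injective (fun x => P.Phi x y) := by
  have Z1 : ∀ i j h : ZMod 5, i + j = (j - h) + j → j = i + h := by decide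
  have Z2 : ∀ j h h' : ZMod 5, (j - h) + j = (j - h') + j → h = h' := by decide
  have Z3 : ∀ i i' h : ZMod 5, i + (i + h) = i' + (i' + h) → i = i' := by decide
  rcases y with ⟨v, j⟩ | a
  · rintro (⟨u, i⟩ | b) (⟨u', i'⟩ | b') he
    · simp only at he
      by_cases h1 : u = v
      · subst h1
        rw [P.phi_same] at he
        by_cases h2 : u' = u
        · subst h2
          rw [P.phi_same] at he
          simp only [Sum.inr.injEq, Sum.inl.injEq] at he
          rw [base5_col j he]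
        · rcases P.phi_cases i' j h2 with ⟨c, _, _, h3⟩ | ⟨_, h3⟩ <;> rw [h3] at he <;> simp at he
      · rcases P.phi_cases i j h1 with ⟨c, g1, g2, h3⟩ | ⟨g1, h3⟩
        · rw [h3] at he
          by_cases h2 : u' = v
          · subst h2
            rw [P.phi_same] at he
            simp at he
          · rcases P.phi_cases i' j h2 with ⟨d, g3, g4, h4⟩ | ⟨_, h4⟩
            · rw [h4] at he
              simp only [Sum.inr.injEq, Prod.mk.injEq] at he
              obtain ⟨rfl, _⟩ := he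
              have e1 : u = u' := (P.s c).injective (g1.symm.trans g3)
              have e2 : i = i' := by
                have := g2.symm.trans g4
                simpa using this
              rw [e1, e2]
            · rw [h4] at he; simp at he
        · rw [h3] at he
          by_cases h2 : u' = v
          · subst h2
            rw [P.phi_same] at he
            simp at he
          · rcases P.phi_cases i' j h2 with ⟨d, g3, g4, h4⟩ | ⟨_, h4⟩
            · rw [h4] at he; simp at he
            · rw [h4] at he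
              simp only [Sum.inl.injEq, Prod.mk.injEq, add_left_inj] at he
              rw [P.f_symm u v, P.f_symm u' v] at he
              rw [P.f_inj v u u' h1 h2 he.1, he.2.2]
    · simp only at he
      rw [P.phi_inr_left] at he
      by_cases h1 : u = v
      · subst h1
        rw [P.phi_same] at he
        simp at he
      · rcases P.phi_cases i j h1 with ⟨c, g1, g2, h3⟩ | ⟨g1, h3⟩
        · rw [h3] at he; simp at he
        · rw [h3] at he
          simp only [Sum.inl.injEq, Prod.mk.injEq] at he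
          rw [P.f_symm u v, P.f_symm _ v] at he
          have e1 := P.f_inj v u _ h1 (P.symm_ne b' v) he.1
          have e2 : v = P.s b' u := by rw [e1, Equiv.apply_symm_apply]
          exact absurd ⟨e2, Z1 _ _ _ he.2.2⟩ (g1 b')
    · simp only at he
      rw [P.phi_inr_left] at he
      by_cases h1 : u' = v
      · subst h1
        rw [P.phi_same] at he
        simp at he
      · rcases P.phi_cases i' j h1 with ⟨c, g1, g2, h3⟩ | ⟨g1, h3⟩
        · rw [h3] at he; simp at he
        · rw [h3] at he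
          simp only [Sum.inl.injEq, Prod.mk.injEq] at he
          rw [P.f_symm u' v, P.f_symm _ v] at he
          have e1 := P.f_inj v u' _ h1 (P.symm_ne b v) he.1.symm
          have e2 : v = P.s b u' := by rw [e1, Equiv.apply_symm_apply]
          exact absurd ⟨e2, Z1 _ _ _ he.2.2.symm⟩ (g1 b)
    · simp only at he
      rw [P.phi_inr_left, P.phi_inr_left] at he
      simp only [Sum.inl.injEq, Prod.mk.injEq] at he
      rw [P.f_symm _ v, P.f_symm _ v] at he
      have e1 := P.f_inj v _ _ (P.symm_ne b v) (P.symm_ne b' v) he.1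
      have e2 := Z2 _ _ _ he.2.2
      have e3 : P.s b ((P.s b).symm v) = P.s b' ((P.s b).symm v) := by
        rw [Equiv.apply_symm_apply, e1, Equiv.apply_symm_apply]
      rw [P.s_disj b b' _ e3 e2]
  · rintro (⟨u, i⟩ | b) (⟨u', i'⟩ | b') he
    · simp only at he
      rw [P.phi_inr_right, P.phi_inr_right] at he
      simp only [Sum.inl.injEq, Prod.mk.injEq] at he
      rw [P.s_inj a u u' he.1 he.2.1, Z3 _ _ _ he.2.2]
    · simp only at he
      rw [P.phi_inr_right, P.phi_corner] at he; simp at he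
    · simp only at he
      rw [P.phi_inr_right, P.phi_corner] at he; simp at he
    · simp only at he
      rw [P.phi_corner, P.phi_corner] at he
      simp only [Sum.inr.injEq, Prod.mk.injEq, and_true] at he
      rw [P.L_col a he]

/-- the free cells -/
def Free (x y : Idx V A) : Prop := ∃ u i j, x = .inl (u, i) ∧ y = .inl (u, j) ∧ (i, j) ∈ free5

theorem not_free_ne {u v : V} (i j : ZMod 5) (h : u ≠ v) :
    ¬ Free (.inl (u, i) : Idx V A) (.inl (v, j)) := by
  rintro ⟨w, i', j', h1, h2, _⟩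
  simp only [Sum.inl.injEq, Prod.mk.injEq] at h1 h2
  exact h (h1.1.trans h2.1.symm)

theorem not_free_right (u : V) (i : ZMod 5) (a : A) : ¬ Free (.inl (u, i) : Idx V A) (.inr a) := by
  rintro ⟨w, i', j', h1, h2, _⟩
  simp at h2

theorem not_free_left (x : Idx V A) (a : A) : ¬ Free (.inr a : Idx V A) x := by
  rintro ⟨w, i', j', h1, h2, _⟩
  simp at h1

theorem Plan.rigid (P : Plan V F A) (g : Idx V A → Idx V A → Col F A)
    (gr : ∀ x, Injective (g x)) (gc : ∀ y, Injective (fun x => g x y))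
    (hg : ∀ x y, ¬ Free x y → g x y = P.Phi x y) : g = P.Phi := by
  have key : ∀ u i j, ∃ w, g (.inl (u, i)) (.inl (u, j)) = .inr (.inl w) := by
    intro u i j
    rcases hx : g (.inl (u, i)) (.inl (u, j)) with ⟨φ, b, z⟩ | (w | ⟨a, b⟩)
    · exfalso
      obtain ⟨v, hv, hφ⟩ := P.f_surj u φ
      by_cases ho : P.o u v = b
      · -- row
        rcases P.phi_cases i (z - i) hv.symm with ⟨a, g1, g2, _⟩ | ⟨_, g1⟩
        · have h1 : P.Phi (.inl (u, i)) (.inr a) = .inl (φ, b, z) := by
            rw [P.phi_inr_right, ← g1, hφ, ho, ← g2]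
            congr 3
            ring
          have h2 := hg (.inl (u, i)) (.inr a) (not_free_right u i a)
          rw [h1] at h2
          have := gr _ (h2.trans hx.symm)
          simp at this
        · have h1 : P.Phi (.inl (u, i)) (.inl (v, z - i)) = .inl (φ, b, z) := by
            rw [g1, hφ, ho]
            congr 3
            ring
          have h2 := hg (.inl (u, i)) (.inl (v, z - i)) (not_free_ne _ _ hv.symm)
          rw [h1] at h2
          have := gr _ (h2.trans hx.symm)
          simp only [Sum.inl.injEq, Prod.mk.injEq] at this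
          exact hv this.1
      · -- column
        have ho2 : P.o v u = b := by
          rw [P.o_anti u v hv.symm]
          cases h : P.o u v <;> cases b <;> simp_all
        have hφ2 : P.f v u = φ := by rw [P.f_symm]; exact hφ
        rcases P.phi_cases (z - j) j hv with ⟨a, g1, g2, _⟩ | ⟨_, g1⟩
        · have h1 : P.Phi (.inr a) (.inl (u, j)) = .inl (φ, b, z) := by
            rw [P.phi_inr_left, g1, Equiv.symm_apply_apply, ← g1, hφ2, ho2]
            congr 3
            linear_combination g2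
          have h2 := hg (.inr a) (.inl (u, j)) (not_free_left _ a)
          rw [h1] at h2
          have := gc (.inl (u, j)) (h2.trans hx.symm)
          simp at this
        · have h1 : P.Phi (.inl (v, z - j)) (.inl (u, j)) = .inl (φ, b, z) := by
            rw [g1, hφ2, ho2]
            congr 3
            ring
          have h2 := hg (.inl (v, z - j)) (.inl (u, j)) (not_free_ne _ _ hv)
          rw [h1] at h2
          have := gc (.inl (u, j)) (h2.trans hx.symm)
          simp only [Sum.inl.injEq, Prod.mk.injEq] at this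
          exact hv this.1
    · exact ⟨w, rfl⟩
    · exfalso
      by_cases ho : P.p u = b
      · have h1 := P.phi_T a u i
        have h2 := hg (.inl (u, i)) (.inl (P.s a u, i + P.h a)) (not_free_ne _ _ (P.s_ne a u).symm)
        rw [h1, ho] at h2
        have := gr _ (h2.trans hx.symm)
        simp only [Sum.inl.injEq, Prod.mk.injEq] at this
        exact P.s_ne a u this.1
      · have hp : P.p ((P.s a).symm u) = b := by
          have := P.p_flip a ((P.s a).symm u)
          rw [Equiv.apply_symm_apply] at this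
          cases h : P.p ((P.s a).symm u) <;> cases b <;> simp_all
        have h1 := P.phi_T a ((P.s a).symm u) (j - P.h a)
        rw [Equiv.apply_symm_apply, sub_add_cancel, hp] at h1
        have h2 := hg (.inl ((P.s a).symm u, j - P.h a)) (.inl (u, j)) (not_free_ne _ _ (P.symm_ne a u))
        rw [h1] at h2
        have := gc (.inl (u, j)) (h2.trans hx.symm)
        simp only [Sum.inl.injEq, Prod.mk.injEq] at this
        exact P.symm_ne a u this.1
  choose w hw using key
  have hb : ∀ u, w u = base5 := by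
    intro u
    apply base5_rigid
    · intro i j j' h
      have := gr (.inl (u, i)) ((hw u i j).trans ((congrArg _ (congrArg _ h)).trans (hw u i j').symm))
      simpa using this
    · intro j i i' h
      simp only at h
      have := gc (.inl (u, j)) ((hw u i j).trans ((congrArg _ (congrArg _ h)).trans (hw u i' j).symm))
      simpa using this
    · intro i j hij
      have h1 := hg (.inl (u, i)) (.inl (u, j)) (by
        rintro ⟨v, i', j', h1, h2, h3⟩
        simp only [Sum.inl.injEq, Prod.mk.injEq] at h1 h2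
        rw [← h1.2, ← h2.2] at h3
        exact hij h3)
      rw [hw, P.phi_same] at h1
      simpa using h1
  funext x y
  by_cases hf : Free x y
  · obtain ⟨u, i, j, rfl, rfl, _⟩ := hf
    rw [hw, hb, P.phi_same]
  · exact hg x y hf

section Inst
variable (k : ℕ)

theorem zval_one : (1 : ZMod (2 * k + 3)).val = 1 := ZMod.val_one'' (by omega)

theorem zval_neg_one : (-1 : ZMod (2 * k + 3)).val = 2 * k + 2 := ZMod.val_neg_one (2 * k + 2)

theorem zval_succ {x : ZMod (2 * k + 3)} (hx : x ≠ -1) : (x + 1).val = x.val + 1 := by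
  have h1 := ZMod.val_lt x
  have h2 : x.val ≠ 2 * k + 2 := by
    intro h
    apply hx
    apply ZMod.val_injective
    rw [h, zval_neg_one]
  rw [ZMod.val_add_of_lt, zval_one]
  rw [zval_one]; omega

theorem one_ne_zero' : (1 : ZMod (2 * k + 3)) ≠ 0 := by
  intro h
  have := congrArg ZMod.val h
  rw [zval_one, ZMod.val_zero] at this
  omega

theorem dbl_eq (x : ZMod (2 * k + 3)) : ((k + 2 : ℕ) : ZMod (2 * k + 3)) * (x + x) = x := by
  have : ((2 * k + 3 : ℕ) : ZMod (2 * k + 3)) = 0 := ZMod.natCast_self _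
  push_cast at this ⊢
  linear_combination x * this

theorem dbl_inj {x y : ZMod (2 * k + 3)} (h : x + x = y + y) : x = y := by
  rw [← dbl_eq k x, h, dbl_eq]

theorem dbl_surj (z : ZMod (2 * k + 3)) : ∃ y, y + y = z := by
  refine ⟨((k + 2 : ℕ) : ZMod (2 * k + 3)) * z, ?_⟩
  rw [← mul_add, dbl_eq]

def ff : Option (ZMod (2 * k + 3)) → Option (ZMod (2 * k + 3)) → ZMod (2 * k + 3)
  | some x, some y => x + y
  | some x, none => x + x
  | none, some x => x + x
  | none, none => 0

def oo : Option (ZMod (2 * k + 3)) → Option (ZMod (2 * k + 3)) → Bool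
  | some x, some y => decide (x.val < y.val)
  | some x, none => decide (x = 0)
  | none, some x => decide (x ≠ 0)
  | none, none => false

def pp : Option (ZMod (2 * k + 3)) → Bool
  | some x => decide (x.val % 2 = 1)
  | none => true

def cyc : Option (ZMod (2 * k + 3)) ≃ Option (ZMod (2 * k + 3)) where
  toFun
    | some x => if x = -1 then none else some (x + 1)
    | none => some 0
  invFun
    | some x => if x = 0 then none else some (x - 1)
    | none => some (-1)
  left_inv := by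
    rintro (_ | x)
    · simp
    · by_cases h : x = -1
      · simp [h]
      · have : x + 1 ≠ 0 := fun e => h (eq_neg_of_add_eq_zero_left e)
        simp [h, this]
  right_inv := by
    rintro (_ | x)
    · simp
    · by_cases h : x = 0
      · simp [h]
      · simp [h]

theorem cyc_some {x : ZMod (2 * k + 3)} (h : x ≠ -1) : cyc k (some x) = some (x + 1) := by
  simp [cyc, h]

theorem cyc_last : cyc k (some (-1)) = none := by simp [cyc]

theorem cyc_none : cyc k none = some 0 := rfl

theorem ff_symm (u v : Option (ZMod (2 * k + 3))) : ff k u v = ff k v u := by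
  rcases u with _ | x <;> rcases v with _ | y <;> simp [ff, add_comm]

theorem ff_inj (u v v' : Option (ZMod (2 * k + 3))) (h1 : v ≠ u) (h2 : v' ≠ u) (h : ff k u v = ff k u v') :
    v = v' := by
  rcases u with _ | x <;> rcases v with _ | y <;> rcases v' with _ | y'
  · rfl
  · exact absurd rfl h1
  · exact absurd rfl h2
  · simp only [ff] at h; rw [dbl_inj k h]
  · rfl
  · simp only [ff, add_right_inj] at h; exact absurd (by rw [h]) h2
  · simp only [ff, add_right_inj] at h; exact absurd (by rw [h]) h1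
  · simp only [ff, add_right_inj] at h; rw [h]

theorem ff_surj (u : Option (ZMod (2 * k + 3))) (z : ZMod (2 * k + 3)) : ∃ v, v ≠ u ∧ ff k u v = z := by
  rcases u with _ | x
  · obtain ⟨y, hy⟩ := dbl_surj k z
    exact ⟨some y, by simp, by simp [ff, hy]⟩
  · by_cases h : z - x = x
    · refine ⟨none, by simp, ?_⟩
      simp only [ff]
      linear_combination -h
    · refine ⟨some (z - x), by simpa using h, ?_⟩
      simp [ff]

theorem oo_anti (u v : Option (ZMod (2 * k + 3))) (h : u ≠ v) : oo k v u = !oo k u v := by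
  rcases u with _ | x <;> rcases v with _ | y
  · exact absurd rfl h
  · simp [oo]
  · simp [oo]
  · simp only [oo]
    have : x.val ≠ y.val := fun e => h (by rw [ZMod.val_injective _ e])
    rw [← decide_not]
    congr 1
    rw [eq_iff_iff]
    omega

theorem cyc_ne (u : Option (ZMod (2 * k + 3))) : cyc k u ≠ u := by
  rcases u with _ | x
  · simp [cyc_none]
  · by_cases h : x = -1
    · rw [h, cyc_last]; simp
    · rw [cyc_some k h]
      simp [one_ne_zero' k]

theorem cyc_cyc_ne (u : Option (ZMod (2 * k + 3))) : cyc k (cyc k u) ≠ u := by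
  have h01 : (0 : ZMod (2 * k + 3)) ≠ -1 := by
    intro h
    have := congrArg ZMod.val h
    rw [zval_neg_one, ZMod.val_zero] at this
    omega
  rcases u with _ | x
  · rw [cyc_none, cyc_some k h01]; simp
  · by_cases h : x = -1
    · rw [h, cyc_last, cyc_none]
      simpa using h01
    · rw [cyc_some k h]
      by_cases h2 : x + 1 = -1
      · rw [h2, cyc_last]; simp
      · rw [cyc_some k h2]
        intro h3
        simp only [Option.some.injEq] at h3
        have h4 : (1 : ZMod (2 * k + 3)) + 1 = 0 := by linear_combination h3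
        have h5 := congrArg ZMod.val h4
        have h6 : (1 : ZMod (2 * k + 3)) ≠ -1 := by
          intro h
          have := congrArg ZMod.val h
          rw [zval_one, zval_neg_one] at this
          omega
        rw [zval_succ k h6, zval_one, ZMod.val_zero] at h5
        omega

theorem pp_flip (u : Option (ZMod (2 * k + 3))) : pp k (cyc k u) = !pp k u := by
  rcases u with _ | x
  · simp [cyc_none, pp]
  · by_cases h : x = -1
    · rw [h, cyc_last]
      simp only [pp, zval_neg_one]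
      simp
    · rw [cyc_some k h]
      simp only [pp]
      rw [zval_succ k h, ← decide_not]
      congr 1
      rw [eq_iff_iff]
      omega

theorem cyc_pair_inj (u v : Option (ZMod (2 * k + 3))) (h : ff k u (cyc k u) = ff k v (cyc k v))
    (h' : oo k u (cyc k u) = oo k v (cyc k v)) : u = v := by
  have hz : (-1 : ZMod (2 * k + 3)) ≠ 0 := by
    intro h
    have := congrArg ZMod.val h
    rw [zval_neg_one, ZMod.val_zero] at this
    omega
  have o1 : ∀ x : ZMod (2 * k + 3), x ≠ -1 → oo k (some x) (cyc k (some x)) = true := by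
    intro x hx
    rw [cyc_some k hx]
    simp only [oo]
    rw [zval_succ k hx]
    simp
  have o2 : oo k (some (-1)) (cyc k (some (-1))) = false := by
    rw [cyc_last]; simp [oo, hz]
  have o3 : oo k none (cyc k none) = false := by
    rw [cyc_none]; simp [oo]
  have f1 : ∀ x : ZMod (2 * k + 3), x ≠ -1 → ff k (some x) (cyc k (some x)) = x + (x + 1) := by
    intro x hx
    rw [cyc_some k hx]; rfl
  have f2 : ff k (some (-1)) (cyc k (some (-1))) = -1 + -1 := by
    rw [cyc_last]; rfl
  have f3 : ff k none (cyc k none) = 0 + 0 := by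
    rw [cyc_none]; rfl
  rcases u with _ | x <;> rcases v with _ | y
  · rfl
  · by_cases hy : y = -1
    · subst hy
      rw [f3, f2] at h
      exact absurd (dbl_inj k h).symm hz
    · rw [o3, o1 y hy] at h'; simp at h'
  · by_cases hx : x = -1
    · subst hx
      rw [f3, f2] at h
      exact absurd (dbl_inj k h) hz
    · rw [o3, o1 x hx] at h'; simp at h'
  · by_cases hx : x = -1
    · by_cases hy : y = -1
      · rw [hx, hy]
      · subst hx
        rw [o2, o1 y hy] at h'; simp at h'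
    · by_cases hy : y = -1
      · subst hy
        rw [o2, o1 x hx] at h'; simp at h'
      · rw [f1 x hx, f1 y hy] at h
        have : x + x = y + y := by linear_combination h
        rw [dbl_inj k this]

/-- the plan with `2k+4` blocks and `s ≤ 9` extra lines -/
def thePlan (s : ℕ) (hs : s ≤ 9) : Plan (Option (ZMod (2 * k + 3))) (ZMod (2 * k + 3)) (Fin s) where
  f := ff k
  o := oo k
  s := fun a => if a.val < 5 then cyc k else (cyc k).symm
  h := fun a => (a.val : ZMod 5)
  p := pp k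
  L := fun a b => ⟨(a.val + b.val) % s, Nat.mod_lt _ (lt_of_le_of_lt (Nat.zero_le _) a.isLt)⟩
  f_symm := ff_symm k
  f_inj := ff_inj k
  f_surj := ff_surj k
  o_anti := oo_anti k
  s_ne := by
    intro a u
    by_cases h : a.val < 5
    · simp only [if_pos h]; exact cyc_ne k u
    · simp only [if_neg h]
      intro e
      have := cyc_ne k ((cyc k).symm u)
      rw [Equiv.apply_symm_apply] at this
      exact this e.symm
  s_inj := by
    intro a u v h1 h2
    by_cases h : a.val < 5
    · simp only [if_pos h] at h1 h2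
      exact cyc_pair_inj k u v h1 h2
    · simp only [if_neg h] at h1 h2
      have key : (cyc k).symm u = (cyc k).symm v := by
        apply cyc_pair_inj k
        · rw [Equiv.apply_symm_apply, Equiv.apply_symm_apply, ff_symm k _ u, ff_symm k _ v]
          exact h1
        · have e : ∀ w, (cyc k).symm w ≠ w := by
            intro w hw
            have := cyc_ne k ((cyc k).symm w)
            rw [Equiv.apply_symm_apply] at this
            exact this hw.symm
          rw [Equiv.apply_symm_apply, Equiv.apply_symm_apply, oo_anti k u _ (e u).symm,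
            oo_anti k v _ (e v).symm, h2]
      exact (cyc k).symm.injective key
  s_disj := by
    have hc : ∀ x y : Fin s, ((x.val : ZMod 5) = (y.val : ZMod 5)) → x.val % 5 = y.val % 5 := by
      intro x y h
      exact (ZMod.natCast_eq_natCast_iff' _ _ _).mp h
    intro a b u h1 h2
    have h3 := hc a b h2
    have ha := a.isLt
    have hb := b.isLt
    have hne : cyc k u ≠ (cyc k).symm u := by
      intro h
      apply cyc_cyc_ne k u
      rw [h, Equiv.apply_symm_apply]
    by_cases h4 : a.val < 5 <;> by_cases h5 : b.val < 5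
    · apply Fin.ext; omega
    · simp only [if_pos h4, if_neg h5] at h1
      exact absurd h1 hne
    · simp only [if_pos h5, if_neg h4] at h1
      exact absurd h1.symm hne
    · apply Fin.ext; omega
  p_flip := by
    intro a u
    by_cases h : a.val < 5
    · simp only [if_pos h]; exact pp_flip k u
    · simp only [if_neg h]
      have := pp_flip k ((cyc k).symm u)
      rw [Equiv.apply_symm_apply] at this
      rw [this, Bool.not_not]
  L_row := by
    intro a b b' h
    simp only [Fin.mk.injEq] at h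
    have h1 : (a.val + b.val) ≡ (a.val + b'.val) [MOD s] := h
    have h2 := Nat.ModEq.add_left_cancel' _ h1
    have h3 := Nat.ModEq.eq_of_lt_of_lt h2 b.isLt b'.isLt
    exact Fin.ext h3
  L_col := by
    intro b a a' h
    simp only [Fin.mk.injEq] at h
    have h1 : (a.val + b.val) ≡ (a'.val + b.val) [MOD s] := h
    have h2 := Nat.ModEq.add_right_cancel' _ h1
    have h3 := Nat.ModEq.eq_of_lt_of_lt h2 a.isLt a'.isLt
    exact Fin.ext h3

end Inst


theorem lower (n : ℕ) (hn : 1 ≤ n) (S : Finset (Fin n × Fin n)) (p : S → Fin (2 * n - 2))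
    (h : ∃! c : (SimpleGraph.boxProd (⊤ : SimpleGraph (Fin n)) (⊤ : SimpleGraph (Fin n))).Coloring
      (Fin (2 * n - 2)), ∀ v : S, c v = p v) :
    5 * n ^ 2 ≤ 5 * S.card + 8 * n := by
  classical
  obtain ⟨c, hc, hu⟩ := h
  let X : Config (Fin n) (Fin n) (Fin (2 * n - 2)) :=
    { c := fun r q => c (r, q)
      H := fun r q => (r, q) ∉ S
      row := by
        intro r q q' he
        by_contra hne
        exact c.valid (v := (r, q)) (w := (r, q'))
          (SimpleGraph.boxProd_adj.mpr (Or.inr ⟨by simpa using hne, rfl⟩)) he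
      col := by
        intro q r r' he
        by_contra hne
        exact c.valid (v := (r, q)) (w := (r', q))
          (SimpleGraph.boxProd_adj.mpr (Or.inl ⟨by simpa using hne, rfl⟩)) he
      uniq := by
        intro g h1 h2 h3
        let c' : (SimpleGraph.boxProd (⊤ : SimpleGraph (Fin n)) (⊤ : SimpleGraph (Fin n))).Coloring
            (Fin (2 * n - 2)) := SimpleGraph.Coloring.mk (fun v => g v.1 v.2) (by
          rintro ⟨r, q⟩ ⟨r', q'⟩ hadj he
          rcases SimpleGraph.boxProd_adj.mp hadj with ⟨a, b⟩ | ⟨a, b⟩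
          · simp only at b; subst b
            exact (by simpa using a : r ≠ r') (h2 q he)
          · simp only at b; subst b
            exact (by simpa using a : q ≠ q') (h1 r he))
        have : c' = c := by
          apply hu
          intro v
          rw [← hc v]
          exact h3 v.1.1 v.1.2 (by simp)
        funext r q
        exact congrArg (fun f => f (r, q)) this
      card := by
        simp only [Fintype.card_fin]
        omega }
  have hb := X.bound
  have hHF : X.HF = Sᶜ := by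
    ext e
    rw [X.mem_HF, mem_compl]
  rw [hHF, card_compl, Fintype.card_prod, Fintype.card_fin] at hb
  have hS : S.card ≤ n * n := by
    have := card_le_univ S
    rwa [Fintype.card_prod, Fintype.card_fin] at this
  rw [sq]
  omega

theorem transfer {I K : Type*} [Fintype I] [Fintype K] [DecidableEq I] {n k : ℕ}
    (hI : Fintype.card I = n) (hK : Fintype.card K = k) (Φ : I → I → K)
    (row : ∀ x, Injective (Φ x)) (col : ∀ y, Injective (fun x => Φ x y)) (T : Finset (I × I))
    (rigid : ∀ g : I → I → K, (∀ x, Injective (g x)) → (∀ y, Injective (fun x => g x y)) →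
      (∀ x y, (x, y) ∉ T → g x y = Φ x y) → g = Φ) :
    ∃ S : Finset (Fin n × Fin n), S.card + T.card = n ^ 2 ∧ ∃ p : S → Fin k,
      ∃! c : (SimpleGraph.boxProd (⊤ : SimpleGraph (Fin n)) (⊤ : SimpleGraph (Fin n))).Coloring (Fin k),
        ∀ v : S, c v = p v := by
  let e : I ≃ Fin n := Fintype.equivFinOfCardEq hI
  let κ : K ≃ Fin k := Fintype.equivFinOfCardEq hK
  refine ⟨(Tᶜ).map (e.prodCongr e).toEmbedding, ?_, ?_⟩
  · rw [card_map, card_compl, Fintype.card_prod, hI, sq]
    have : T.card ≤ n * n := by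
      have := card_le_univ T
      rwa [Fintype.card_prod, hI] at this
    omega
  · refine ⟨fun v => κ (Φ (e.symm v.1.1) (e.symm v.1.2)), ?_⟩
    refine ⟨SimpleGraph.Coloring.mk (fun v => κ (Φ (e.symm v.1) (e.symm v.2))) ?_, ?_, ?_⟩
    · rintro ⟨r, q⟩ ⟨r', q'⟩ hadj he
      have he2 := κ.injective he
      rcases SimpleGraph.boxProd_adj.mp hadj with ⟨a, b⟩ | ⟨a, b⟩
      · simp only at b; subst b
        exact (by simpa using a : r ≠ r') (e.symm.injective (col _ he2))
      · simp only at b; subst b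
        exact (by simpa using a : q ≠ q') (e.symm.injective (row _ he2))
    · intro v
      rfl
    · intro c' hc'
      have key : (fun x y => κ.symm (c' (e x, e y))) = Φ := by
        apply rigid
        · intro x y y' he
          by_contra hne
          have h1 : c' (e x, e y) = c' (e x, e y') := κ.symm.injective he
          exact c'.valid (v := (e x, e y)) (w := (e x, e y'))
            (SimpleGraph.boxProd_adj.mpr (Or.inr ⟨by simpa using hne, rfl⟩)) h1
        · intro y x x' he
          by_contra hne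
          have h1 : c' (e x, e y) = c' (e x', e y) := κ.symm.injective he
          exact c'.valid (v := (e x, e y)) (w := (e x', e y))
            (SimpleGraph.boxProd_adj.mpr (Or.inl ⟨by simpa using hne, rfl⟩)) h1
        · intro x y hxy
          have hm : (e x, e y) ∈ (Tᶜ).map (e.prodCongr e).toEmbedding := by
            rw [mem_map]
            exact ⟨(x, y), by simpa using hxy, rfl⟩
          have := hc' ⟨(e x, e y), hm⟩
          simp only at this ⊢
          rw [this]
          simp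
      ext ⟨r, q⟩
      have := congrFun (congrFun key (e.symm r)) (e.symm q)
      simp only [Equiv.apply_symm_apply] at this
      have h2 : c' (r, q) = κ (Φ (e.symm r) (e.symm q)) := by
        rw [← this, Equiv.apply_symm_apply]
      rw [h2]
      rfl

theorem upper (n : ℕ) (hn : 20 ≤ n) :
    ∃ S : Finset (Fin n × Fin n), S.card + 16 * (n / 10) = n ^ 2 ∧ ∃ p : S → Fin (2 * n - 2),
      ∃! c : (SimpleGraph.boxProd (⊤ : SimpleGraph (Fin n)) (⊤ : SimpleGraph (Fin n))).Coloring
        (Fin (2 * n - 2)), ∀ v : S, c v = p v := by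
  classical
  obtain ⟨k, s, hs, rfl⟩ : ∃ k s, s ≤ 9 ∧ n = 10 * (k + 2) + s :=
    ⟨n / 10 - 2, n % 10, by omega, by omega⟩
  let P := thePlan k s hs
  let T : Finset (Idx (Option (ZMod (2 * k + 3))) (Fin s) × Idx (Option (ZMod (2 * k + 3))) (Fin s)) :=
    univ.filter (fun x => Free x.1 x.2)
  have hT : T.card = 16 * (k + 2) := by
    have h1 : T = ((univ : Finset (Option (ZMod (2 * k + 3)))) ×ˢ free5).map
        ⟨fun x => (Sum.inl (x.1, x.2.1), Sum.inl (x.1, x.2.2)), by
          rintro ⟨u, i, j⟩ ⟨u', i', j'⟩ h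
          simp only [Prod.mk.injEq, Sum.inl.injEq] at h
          obtain ⟨⟨h1, h2⟩, _, h3⟩ := h
          rw [h1, h2, h3]⟩ := by
      ext ⟨x, y⟩
      rw [mem_filter, mem_map]
      constructor
      · rintro ⟨_, u, i, j, h1, h2, h⟩
        exact ⟨(u, i, j), mem_product.mpr ⟨mem_univ _, h⟩, Prod.ext h1.symm h2.symm⟩
      · rintro ⟨⟨u, i, j⟩, h, he⟩
        refine ⟨mem_univ _, u, i, j, ?_, ?_, (mem_product.mp h).2⟩
        · exact (congrArg Prod.fst he).symm
        · exact (congrArg Prod.snd he).symm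
    rw [h1, card_map, card_product, free5_card, card_univ, Fintype.card_option, ZMod.card]
    omega
  have hI : Fintype.card (Idx (Option (ZMod (2 * k + 3))) (Fin s)) = 10 * (k + 2) + s := by
    simp only [Fintype.card_sum, Fintype.card_prod, Fintype.card_option, ZMod.card, Fintype.card_fin]
    omega
  have hK : Fintype.card (Col (ZMod (2 * k + 3)) (Fin s)) = 2 * (10 * (k + 2) + s) - 2 := by
    simp only [Fintype.card_sum, Fintype.card_prod, ZMod.card, Fintype.card_fin, Fintype.card_bool]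
    omega
  obtain ⟨S, hS, p, hp⟩ := transfer hI hK P.Phi P.row_inj P.col_inj T (by
    intro g g1 g2 g3
    apply P.rigid g g1 g2
    intro x y hxy
    exact g3 x y (by simpa [T] using hxy))
  refine ⟨S, ?_, p, hp⟩
  rw [hT] at hS
  have : (10 * (k + 2) + s) / 10 = k + 2 := by omega
  rw [this]
  exact hS

/-- the plan with two blocks and no extra line -/
def planTen : Plan Bool Unit (Fin 0) where
  f := fun _ _ => ()
  o := fun u v => u && !v
  s := fun _ => Equiv.refl _
  h := fun _ => 0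
  p := fun _ => true
  L := fun a _ => a
  f_symm := fun _ _ => rfl
  f_inj := by decide
  f_surj := by
    intro u _
    exact ⟨!u, by cases u <;> simp, rfl⟩
  o_anti := by decide
  s_ne := fun a => a.elim0
  s_inj := fun a => a.elim0
  s_disj := fun a => a.elim0
  p_flip := fun a => a.elim0
  L_row := fun a => a.elim0
  L_col := fun a => a.elim0

theorem upper_ten :
    ∃ S : Finset (Fin 10 × Fin 10), S.card + 16 * (10 / 10) = 10 ^ 2 ∧ ∃ p : S → Fin (2 * 10 - 2),
      ∃! c : (SimpleGraph.boxProd (⊤ : SimpleGraph (Fin 10)) (⊤ : SimpleGraph (Fin 10))).Coloring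
        (Fin (2 * 10 - 2)), ∀ v : S, c v = p v := by
  classical
  let P := planTen
  let T : Finset (Idx Bool (Fin 0) × Idx Bool (Fin 0)) := univ.filter (fun x => Free x.1 x.2)
  have hT : T.card = 16 := by
    have h1 : T = ((univ : Finset Bool) ×ˢ free5).map
        ⟨fun x => (Sum.inl (x.1, x.2.1), Sum.inl (x.1, x.2.2)), by
          rintro ⟨u, i, j⟩ ⟨u', i', j'⟩ h
          simp only [Prod.mk.injEq, Sum.inl.injEq] at h
          obtain ⟨⟨h1, h2⟩, _, h3⟩ := h
          rw [h1, h2, h3]⟩ := by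
      ext ⟨x, y⟩
      rw [mem_filter, mem_map]
      constructor
      · rintro ⟨_, u, i, j, h1, h2, h⟩
        exact ⟨(u, i, j), mem_product.mpr ⟨mem_univ _, h⟩, Prod.ext h1.symm h2.symm⟩
      · rintro ⟨⟨u, i, j⟩, h, he⟩
        refine ⟨mem_univ _, u, i, j, ?_, ?_, (mem_product.mp h).2⟩
        · exact (congrArg Prod.fst he).symm
        · exact (congrArg Prod.snd he).symm
    rw [h1, card_map, card_product, free5_card, card_univ, Fintype.card_bool]
  have hI : Fintype.card (Idx Bool (Fin 0)) = 10 := by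
    simp only [Fintype.card_sum, Fintype.card_prod, Fintype.card_bool, ZMod.card, Fintype.card_fin]
  have hK : Fintype.card (Col Unit (Fin 0)) = 2 * 10 - 2 := by
    simp only [Fintype.card_sum, Fintype.card_prod, ZMod.card, Fintype.card_fin, Fintype.card_bool,
      Fintype.card_unit]
  obtain ⟨S, hS, p, hp⟩ := transfer hI hK P.Phi P.row_inj P.col_inj T (by
    intro g g1 g2 g3
    apply P.rigid g g1 g2
    intro x y hxy
    exact g3 x y (by simpa [T] using hxy))
  refine ⟨S, ?_, p, hp⟩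
  rw [hT] at hS
  exact hS

/-- for `n ≥ 2` there is some defining set -/
theorem exists_some (n : ℕ) (hn : 2 ≤ n) :
    ∃ S : Finset (Fin n × Fin n), ∃ p : S → Fin (2 * n - 2),
      ∃! c : (SimpleGraph.boxProd (⊤ : SimpleGraph (Fin n)) (⊤ : SimpleGraph (Fin n))).Coloring
        (Fin (2 * n - 2)), ∀ v : S, c v = p v := by
  classical
  have hlt : ∀ x : Fin n × Fin n, (x.1.val + x.2.val) % n < 2 * n - 2 := by
    intro x
    have := Nat.mod_lt (x.1.val + x.2.val) (show 0 < n by omega)
    omega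
  refine ⟨univ, fun v => ⟨(v.1.1.val + v.1.2.val) % n, hlt v.1⟩, SimpleGraph.Coloring.mk
    (fun v => ⟨(v.1.val + v.2.val) % n, hlt v⟩) ?_, fun v => rfl, ?_⟩
  · rintro ⟨r, q⟩ ⟨r', q'⟩ hadj he
    simp only [Fin.mk.injEq] at he
    rcases SimpleGraph.boxProd_adj.mp hadj with ⟨a, b⟩ | ⟨a, b⟩
    · simp only at b; subst b
      have h1 : (r.val + q.val) ≡ (r'.val + q.val) [MOD n] := he
      have h2 := Nat.ModEq.add_right_cancel' _ h1
      exact (by simpa using a : r ≠ r') (Fin.ext (Nat.ModEq.eq_of_lt_of_lt h2 r.isLt r'.isLt))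
    · simp only at b; subst b
      have h1 : (r.val + q.val) ≡ (r.val + q'.val) [MOD n] := he
      have h2 := Nat.ModEq.add_left_cancel' _ h1
      exact (by simpa using a : q ≠ q') (Fin.ext (Nat.ModEq.eq_of_lt_of_lt h2 q.isLt q'.isLt))
  · intro c' hc'
    ext v
    have := hc' ⟨v, mem_univ v⟩
    simp only at this
    rw [this]
    rfl

end Pool.Agent.Helper372.Rook
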