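import Mathlib

set_option autoImplicit false

open Cardinal Ordinal Set

universe u

namespace Pool.Agent.Helper372.SuperAt

section Rank

variable {B : Type u} [BooleanAlgebra B]

/-- `RkGe γ b`: the rank of `b` is at least `γ`, i.e. `b ≠ ⊥` and for every `δ < γ` there are
infinitely many pairwise disjoint elements below `b` of rank at least `δ`. -/
def RkGe (γ : Ordinal.{u}) (b : B) : Prop :=
  b ≠ ⊥ ∧ ∀ δ, δ < γ → ∃ f : ℕ → B, (∀ n, f n ≤ b) ∧ (∀ m n, m < n → Disjoint (f m) (f n)) ∧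
    ∀ n, RkGe δ (f n)
termination_by γ

theorem rkGe_iff (γ : Ordinal.{u}) (b : B) : RkGe γ b ↔
    b ≠ ⊥ ∧ ∀ δ, δ < γ → ∃ f : ℕ → B, (∀ n, f n ≤ b) ∧ (∀ m n, m < n → Disjoint (f m) (f n)) ∧
    ∀ n, RkGe δ (f n) := by
  rw [RkGe]

theorem RkGe.ne_bot {γ : Ordinal.{u}} {b : B} (h : RkGe γ b) : b ≠ ⊥ := ((rkGe_iff γ b).1 h).1

theorem RkGe.anti {γ δ : Ordinal.{u}} {b : B} (hδ : δ ≤ γ) (h : RkGe γ b) : RkGe δ b := by
  rw [rkGe_iff] at h ⊢
  exact ⟨h.1, fun ε hε => h.2 ε (hε.trans_le hδ)⟩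

theorem RkGe.mono {γ : Ordinal.{u}} {b b' : B} (hb : b ≤ b') (h : RkGe γ b) : RkGe γ b' := by
  rw [rkGe_iff] at h ⊢
  refine ⟨fun h0 => h.1 (le_bot_iff.1 (h0 ▸ hb)), fun δ hδ => ?_⟩
  obtain ⟨f, h1, h2, h3⟩ := h.2 δ hδ
  exact ⟨f, fun n => (h1 n).trans hb, h2, h3⟩

theorem rkGe_zero {b : B} (h : b ≠ ⊥) : RkGe 0 b := by
  rw [rkGe_iff]
  exact ⟨h, fun δ hδ => absurd hδ (not_lt.2 zero_le)⟩

/-- from infinitely many disjoint elements of rank at least `γ` -/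
theorem rkGe_succ {γ : Ordinal.{u}} {b : B} (f : ℕ → B) (h1 : ∀ n, f n ≤ b)
    (h2 : ∀ m n, m < n → Disjoint (f m) (f n)) (h3 : ∀ n, RkGe γ (f n)) :
    RkGe (Order.succ γ) b := by
  rw [rkGe_iff]
  refine ⟨((h3 0).mono (h1 0)).ne_bot, fun δ hδ => ⟨f, h1, h2, fun n => (h3 n).anti ?_⟩⟩
  exact Order.lt_succ_iff.1 hδ

/-- subsequences -/
theorem exists_subseq (P Q : ℕ → Prop) (h : ∀ n, P n ∨ Q n) :
    (∃ g : ℕ → ℕ, StrictMono g ∧ ∀ n, P (g n)) ∨ (∃ g : ℕ → ℕ, StrictMono g ∧ ∀ n, Q (g n)) := by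
  by_cases hP : {n | P n}.Infinite
  · left
    exact ⟨Nat.nth P, Nat.nth_strictMono hP, fun n => Nat.nth_mem_of_infinite hP n⟩
  · right
    have hQ : {n | Q n}.Infinite := by
      intro hQ
      apply Set.infinite_univ (α := ℕ)
      refine ((Set.not_infinite.1 hP).union hQ).subset fun n _ => ?_
      exact h n
    exact ⟨Nat.nth Q, Nat.nth_strictMono hQ, fun n => Nat.nth_mem_of_infinite hQ n⟩

theorem RkGe.of_sup {γ : Ordinal.{u}} : ∀ {a b : B}, RkGe γ (a ⊔ b) → RkGe γ a ∨ RkGe γ b := by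
  induction γ using WellFoundedLT.induction with
  | _ γ ih =>
    intro a b h
    by_contra hcon
    push Not at hcon
    obtain ⟨ha, hb⟩ := hcon
    have h' := h
    rw [rkGe_iff] at h
    -- reduce to nonzero
    by_cases ha0 : a = ⊥
    · subst ha0
      rw [bot_sup_eq] at h'
      exact hb h'
    by_cases hb0 : b = ⊥
    · subst hb0
      rw [sup_bot_eq] at h'
      exact ha h'
    rw [rkGe_iff] at ha hb
    simp only [ne_eq, ha0, hb0, not_false_eq_true, true_and] at ha hb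
    push Not at ha hb
    obtain ⟨δ, hδ, hA⟩ := ha
    obtain ⟨ε, hε, hB⟩ := hb
    have hm : max δ ε < γ := max_lt hδ hε
    obtain ⟨f, h1, h2, h3⟩ := h.2 _ hm
    have key : ∀ n, RkGe (max δ ε) (f n ⊓ a) ∨ RkGe (max δ ε) (f n ⊓ b) := by
      intro n
      apply ih _ hm
      rw [← inf_sup_left, inf_eq_left.2 (h1 n)]
      exact h3 n
    rcases exists_subseq _ _ key with ⟨g, hg, hgP⟩ | ⟨g, hg, hgP⟩
    · obtain ⟨n, hn⟩ := hA (fun n => f (g n) ⊓ a) (fun n => inf_le_right)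
        (fun m n hmn => (h2 _ _ (hg hmn)).mono inf_le_left inf_le_left)
      exact hn ((hgP n).anti (le_max_left _ _))
    · obtain ⟨n, hn⟩ := hB (fun n => f (g n) ⊓ b) (fun n => inf_le_right)
        (fun m n hmn => (h2 _ _ (hg hmn)).mono inf_le_left inf_le_left)
      exact hn ((hgP n).anti (le_max_right _ _))

theorem RkGe.map {C : Type u} [BooleanAlgebra C] (φ : B ≃o C) {γ : Ordinal.{u}} :
    ∀ {b : B}, RkGe γ b → RkGe γ (φ b) := by
  induction γ using WellFoundedLT.induction with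
  | _ γ ih =>
    intro b h
    rw [rkGe_iff] at h ⊢
    refine ⟨fun h0 => h.1 (by rwa [map_eq_bot_iff] at h0), fun δ hδ => ?_⟩
    obtain ⟨f, h1, h2, h3⟩ := h.2 δ hδ
    exact ⟨fun n => φ (f n), fun n => φ.monotone (h1 n),
      fun m n hmn => (disjoint_map_orderIso_iff φ).2 (h2 m n hmn), fun n => ih δ hδ (h3 n)⟩

theorem rkGe_map_iff {C : Type u} [BooleanAlgebra C] (φ : B ≃o C) {γ : Ordinal.{u}} {b : B} :
    RkGe γ (φ b) ↔ RkGe γ b :=
  ⟨fun h => by simpa using h.map φ.symm, fun h => h.map φ⟩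

/-- ranks in a subalgebra containing everything below `a` -/
theorem rkGe_sub_iff (A : BooleanSubalgebra B) {γ : Ordinal.{u}} :
    ∀ (a : A), (∀ x : B, x ≤ a → x ∈ A) → (RkGe γ a ↔ RkGe γ (a : B)) := by
  induction γ using WellFoundedLT.induction with
  | _ γ ih =>
    intro a ha
    rw [rkGe_iff, rkGe_iff γ (a : B)]
    have h0 : a ≠ ⊥ ↔ (a : B) ≠ ⊥ := by
      rw [not_iff_not]
      constructor
      · rintro rfl; rfl
      · intro h; exact Subtype.ext h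
    rw [h0]
    refine and_congr_right fun _ => forall_congr' fun δ => forall_congr' fun hδ => ?_
    constructor
    · rintro ⟨f, h1, h2, h3⟩
      refine ⟨fun n => (f n : B), fun n => h1 n, fun m n hmn => ?_, fun n => ?_⟩
      · have := h2 m n hmn
        rw [disjoint_iff] at this ⊢
        exact congrArg Subtype.val this
      · exact (ih δ hδ (f n) (fun x hx => ha x (hx.trans (h1 n)))).1 (h3 n)
    · rintro ⟨f, h1, h2, h3⟩
      refine ⟨fun n => ⟨f n, ha _ (h1 n)⟩, fun n => h1 n, fun m n hmn => ?_, fun n => ?_⟩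
      · have := h2 m n hmn
        rw [disjoint_iff] at this ⊢
        exact Subtype.ext this
      · exact (ih δ hδ ⟨f n, ha _ (h1 n)⟩ (fun x hx => ha x (hx.trans (h1 n)))).2 (h3 n)

/-- `b` has a rank -/
def Sc (b : B) : Prop := ∃ γ : Ordinal.{u}, ¬ RkGe γ b

theorem Sc.mono {a b : B} (h : a ≤ b) (hb : Sc b) : Sc a := by
  obtain ⟨γ, hγ⟩ := hb
  exact ⟨γ, fun h' => hγ (h'.mono h)⟩

theorem Sc.sup {a b : B} (ha : Sc a) (hb : Sc b) : Sc (a ⊔ b) := by
  obtain ⟨γ, hγ⟩ := ha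
  obtain ⟨δ, hδ⟩ := hb
  refine ⟨max γ δ, fun h => ?_⟩
  rcases h.of_sup with h | h
  · exact hγ (h.anti (le_max_left _ _))
  · exact hδ (h.anti (le_max_right _ _))

theorem sc_bot : Sc (⊥ : B) := ⟨0, fun h => h.ne_bot rfl⟩

theorem sc_map_iff {C : Type u} [BooleanAlgebra C] (φ : B ≃o C) {b : B} : Sc (φ b) ↔ Sc b := by
  unfold Sc
  simp only [rkGe_map_iff]

theorem sc_sub_iff (A : BooleanSubalgebra B) (a : A) (ha : ∀ x : B, x ≤ a → x ∈ A) :
    Sc a ↔ Sc (a : B) := by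
  unfold Sc
  simp only [rkGe_sub_iff A a ha]

/-- a common bound for all ranks -/
theorem exists_bound (B : Type u) [BooleanAlgebra B] :
    ∃ Γ : Ordinal.{u}, ∀ b : B, Sc b → ¬ RkGe Γ b := by
  classical
  choose! g hg using fun (b : B) (h : Sc b) => h
  refine ⟨⨆ b, g b, fun b hb h => hg b hb (h.anti (Ordinal.le_iSup g b))⟩

/-- rank at least `γ` for all `γ`, by steps -/
theorem rkGe_of_step {b : B} (hb : b ≠ ⊥)
    (h : ∀ γ : Ordinal.{u}, RkGe γ b → RkGe (Order.succ γ) b) : ∀ γ : Ordinal.{u}, RkGe γ b := by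
  intro γ
  induction γ using WellFoundedLT.induction with
  | _ γ ih =>
    rw [rkGe_iff]
    refine ⟨hb, fun δ hδ => ?_⟩
    have := h δ (ih δ hδ)
    rw [rkGe_iff] at this
    exact this.2 δ (Order.lt_succ δ)

end Rank


section Sub

variable {B : Type u} [BooleanAlgebra B]

/-- ideals -/
structure IsIdl (J : Set B) : Prop where
  bot : ⊥ ∈ J
  lower : ∀ {x y : B}, x ≤ y → y ∈ J → x ∈ J
  sup : ∀ {x y : B}, x ∈ J → y ∈ J → x ⊔ y ∈ J

/-- elements whose trace on `b` lies in `J` or has relative complement in `J` -/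
def sub (J : Set B) (hJ : IsIdl J) (b : B) : BooleanSubalgebra B where
  carrier := {x | x ⊓ b ∈ J ∨ b \ x ∈ J}
  supClosed' := by
    rintro x hx y hy
    rcases hx with hx | hx
    · rcases hy with hy | hy
      · left
        rw [inf_sup_right]
        exact hJ.sup hx hy
      · right
        exact hJ.lower (sdiff_le_sdiff_left le_sup_right) hy
    · right
      exact hJ.lower (sdiff_le_sdiff_left le_sup_left) hx
  infClosed' := by
    rintro x hx y hy
    rcases hx with hx | hx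
    · left
      exact hJ.lower (inf_le_inf_right _ inf_le_left) hx
    · rcases hy with hy | hy
      · left
        exact hJ.lower (inf_le_inf_right _ inf_le_right) hy
      · right
        rw [sdiff_inf]
        exact hJ.sup hx hy
  compl_mem' := by
    rintro x hx
    rcases hx with hx | hx
    · right
      rw [_root_.sdiff_eq, compl_compl, inf_comm]
      exact hx
    · left
      rw [inf_comm, ← _root_.sdiff_eq]
      exact hx
  bot_mem' := by
    left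
    rw [bot_inf_eq]
    exact hJ.bot

theorem mem_sub {J : Set B} {hJ : IsIdl J} {b x : B} :
    x ∈ sub J hJ b ↔ x ⊓ b ∈ J ∨ b \ x ∈ J := Iff.rfl

theorem mem_sub_of_mem {J : Set B} {hJ : IsIdl J} {b x : B} (hx : x ∈ J) : x ∈ sub J hJ b :=
  mem_sub.2 (Or.inl (hJ.lower inf_le_left hx))

theorem mem_sub_of_le_compl {J : Set B} {hJ : IsIdl J} {b x : B} (hx : x ≤ bᶜ) :
    x ∈ sub J hJ b := by
  refine mem_sub.2 (Or.inl ?_)
  have : x ⊓ b = ⊥ := by
    rw [← disjoint_iff]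
    exact (le_compl_iff_disjoint_right.1 hx)
  rw [this]
  exact hJ.bot

theorem self_mem_sub {J : Set B} {hJ : IsIdl J} {b : B} : b ∈ sub J hJ b := by
  refine mem_sub.2 (Or.inr ?_)
  rw [_root_.sdiff_self]
  exact hJ.bot

theorem mem_sub_top {J : Set B} {hJ : IsIdl J} {x : B} : x ∈ sub J hJ ⊤ ↔ x ∈ J ∨ xᶜ ∈ J := by
  rw [mem_sub, inf_top_eq, top_sdiff]

theorem isIdl_bot : IsIdl ({⊥} : Set B) where
  bot := rfl
  lower := by
    rintro x y hxy rfl
    exact le_bot_iff.1 hxy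
  sup := by
    rintro x y rfl rfl
    exact sup_idem ⊥

theorem isIdl_sc : IsIdl {b : B | Sc b} where
  bot := sc_bot
  lower := fun h hy => Sc.mono h hy
  sup := fun hx hy => Sc.sup hx hy

/-- the ideal of superatomic elements glued below `b`: then `b` becomes superatomic -/
theorem sc_self_sub (b : B) (hb : b ∈ sub {b : B | Sc b} isIdl_sc b) :
    Sc (⟨b, hb⟩ : sub {b : B | Sc b} isIdl_sc b) := by
  obtain ⟨Γ, hΓ⟩ := exists_bound B
  refine ⟨Order.succ Γ, fun h => ?_⟩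
  rw [rkGe_iff] at h
  obtain ⟨f, h1, h2, h3⟩ := h.2 Γ (Order.lt_succ Γ)
  have key : ∀ n, ¬ Sc (f n : B) := by
    intro n hn
    refine hΓ _ hn ((rkGe_sub_iff _ (f n) ?_).1 (h3 n))
    intro x hx
    exact mem_sub_of_mem (Sc.mono hx hn)
  have hle : ∀ n, (f n : B) ≤ b := fun n => h1 n
  have hs : ∀ n, Sc (b \ (f n : B)) := by
    intro n
    rcases mem_sub.1 (f n).2 with h | h
    · rw [inf_eq_left.2 (hle n)] at h
      exact absurd h (key n)
    · exact h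
  apply key 0
  refine Sc.mono ?_ (hs 1)
  rw [le_sdiff]
  refine ⟨hle 0, ?_⟩
  have := h2 0 1 Nat.zero_lt_one
  rw [disjoint_iff] at this ⊢
  exact congrArg Subtype.val this

end Sub

section Card

variable {B : Type u} [BooleanAlgebra B]

theorem mk_le_mul (b : B) (S : Set B) (hS : IsIdl S) :
    #S ≤ #{x : B | x ∈ S ∧ x ≤ b} * #(Iic bᶜ) := by
  have : Function.Injective (fun x : S => ((⟨(x : B) ⊓ b, hS.lower inf_le_left x.2, inf_le_right⟩ :
      {x : B | x ∈ S ∧ x ≤ b}), (⟨(x : B) ⊓ bᶜ, inf_le_right⟩ : Iic bᶜ))) := by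
    intro x y h
    have hx1 : (x : B) ⊓ b = (y : B) ⊓ b :=
      congrArg (fun p : {x : B | x ∈ S ∧ x ≤ b} × Iic bᶜ => (p.1 : B)) h
    have hx2 : (x : B) ⊓ bᶜ = (y : B) ⊓ bᶜ :=
      congrArg (fun p : {x : B | x ∈ S ∧ x ≤ b} × Iic bᶜ => (p.2 : B)) h
    apply Subtype.ext
    calc (x : B) = ((x : B) ⊓ b) ⊔ ((x : B) ⊓ bᶜ) := by
          rw [← inf_sup_left, sup_compl_eq_top, inf_top_eq]
      _ = ((y : B) ⊓ b) ⊔ ((y : B) ⊓ bᶜ) := by rw [hx1, hx2]
      _ = y := by rw [← inf_sup_left, sup_compl_eq_top, inf_top_eq]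
  have := Cardinal.mk_le_of_injective this
  rwa [Cardinal.mk_prod, Cardinal.lift_id, Cardinal.lift_id] at this

theorem isIdl_univ : IsIdl (Set.univ : Set B) := ⟨trivial, fun _ _ => trivial, fun _ _ => trivial⟩

theorem mk_iic_or {κ : Cardinal.{u}} (hκ : ℵ₀ ≤ κ) (hB : #B = κ) (b : B) :
    #(Iic b) = κ ∨ #(Iic bᶜ) = κ := by
  by_contra hcon
  push Not at hcon
  have h1 : #(Iic b) < κ := lt_of_le_of_ne (hB ▸ Cardinal.mk_set_le _) hcon.1
  have h2 : #(Iic bᶜ) < κ := lt_of_le_of_ne (hB ▸ Cardinal.mk_set_le _) hcon.2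
  have h3 := mk_le_mul b Set.univ isIdl_univ
  rw [Cardinal.mk_univ, hB] at h3
  have h4 : {x : B | x ∈ Set.univ ∧ x ≤ b} = Iic b := by ext; simp
  rw [h4] at h3
  exact absurd h3 (not_le.2 (Cardinal.mul_lt_of_lt hκ h1 h2))

omit [BooleanAlgebra B] in
theorem mk_eq_of_subset {κ : Cardinal.{u}} (hB : #B = κ) {S T : Set B} (hST : S ⊆ T)
    (hS : #S = κ) : #T = κ :=
  le_antisymm (hB ▸ Cardinal.mk_set_le _) (hS ▸ Cardinal.mk_le_mk_of_subset hST)

end Card

/-- `B` is isomorphic to all its subalgebras of size `κ` -/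
def Star (κ : Cardinal.{u}) (B : Type u) [BooleanAlgebra B] : Prop :=
  ∀ A : BooleanSubalgebra B, #A = κ → Nonempty (A ≃o B)

section Main

variable {B : Type u} [BooleanAlgebra B] {κ : Cardinal.{u}}

theorem mk_sub_of_mk_iic (hB : #B = κ) {J : Set B} (hJ : IsIdl J) {b : B}
    (hb : #(Iic bᶜ) = κ) : #(sub J hJ b) = κ :=
  mk_eq_of_subset (T := (sub J hJ b : Set B)) hB (fun _ hx => mem_sub_of_le_compl hx) hb

theorem mk_sub_of_mk_idl (hB : #B = κ) {J : Set B} (hJ : IsIdl J) {b : B}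
    (hb : #J = κ) : #(sub J hJ b) = κ :=
  mk_eq_of_subset (T := (sub J hJ b : Set B)) hB (fun _ hx => mem_sub_of_mem hx) hb

/-- Step A -/
theorem mk_sc_lt (hB : #B = κ) (hstar : Star κ B) (htop : ¬ Sc (⊤ : B)) :
    #{b : B | Sc b} < κ := by
  refine lt_of_le_of_ne (hB ▸ Cardinal.mk_set_le _) fun h => htop ?_
  obtain ⟨φ⟩ := hstar _ (mk_sub_of_mk_idl hB isIdl_sc (b := ⊤) h)
  have h1 := sc_self_sub (⊤ : B) self_mem_sub
  have h2 : (⟨⊤, self_mem_sub⟩ : sub {b : B | Sc b} isIdl_sc ⊤) = ⊤ := rfl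
  rw [h2, ← sc_map_iff φ, map_top] at h1
  exact h1

theorem not_sc_inf {b : B} (h : ¬ Sc b) : ∃ f : ℕ → B, (∀ n, f n ≤ b) ∧
    (∀ m n, m < n → Disjoint (f m) (f n)) ∧ ∀ n, f n ≠ ⊥ := by
  have h1 : RkGe 1 b := by
    by_contra h2
    exact h ⟨1, h2⟩
  rw [rkGe_iff] at h1
  obtain ⟨f, h2, h3, h4⟩ := h1.2 0 zero_lt_one
  exact ⟨f, h2, h3, fun n => (h4 n).ne_bot⟩

/-- in `sub {⊥} d` the element `d` is an atom -/
theorem not_rkGe_one_of_atom (A : BooleanSubalgebra B) (d : B) (hd : d ∈ A)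
    (hA : ∀ x ∈ A, x ≤ d → x = ⊥ ∨ x = d) : ¬ RkGe 1 (⟨d, hd⟩ : A) := by
  intro h
  rw [rkGe_iff] at h
  obtain ⟨f, h2, h3, h4⟩ := h.2 0 zero_lt_one
  have key : ∀ n, f n = ⟨d, hd⟩ := by
    intro n
    rcases hA (f n) (f n).2 (h2 n) with h5 | h5
    · exact absurd (Subtype.ext h5) (h4 n).ne_bot
    · exact Subtype.ext h5
  have := h3 0 1 Nat.zero_lt_one
  rw [key 0, key 1, disjoint_self] at this
  exact (key 0 ▸ h4 0).ne_bot this

theorem atom_sub {J : Set B} (hJ : J = {⊥}) (hJ' : IsIdl J) (d : B) :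
    ∀ x ∈ sub J hJ' d, x ≤ d → x = ⊥ ∨ x = d := by
  subst hJ
  intro x hx hxd
  rcases mem_sub.1 hx with h | h
  · left
    rwa [inf_eq_left.2 hxd] at h
  · right
    exact le_antisymm hxd (sdiff_eq_bot_iff.1 h)

/-- two disjoint nonzero elements of rank `0` -/
theorem two_atoms (hκ : ℵ₀ ≤ κ) (hB : #B = κ) (hstar : Star κ B) (htop : ¬ Sc (⊤ : B)) :
    ∃ c c' : B, c ≠ ⊥ ∧ c' ≠ ⊥ ∧ Disjoint c c' ∧ Sc c ∧ Sc c' := by
  obtain ⟨f, -, h2, h3⟩ := not_sc_inf htop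
  have key : ∃ d d' : B, d ≠ ⊥ ∧ d' ≠ ⊥ ∧ Disjoint d d' ∧ #(Iic (d ⊔ d')ᶜ) = κ := by
    rcases mk_iic_or hκ hB (f 0 ⊔ f 1) with h | h
    · refine ⟨f 2, f 3, h3 2, h3 3, h2 2 3 (by norm_num), ?_⟩
      refine mk_eq_of_subset hB (fun x hx => ?_) h
      refine le_trans hx ?_
      rw [le_compl_iff_disjoint_right, disjoint_sup_left, disjoint_sup_right, disjoint_sup_right]
      exact ⟨⟨h2 0 2 (by norm_num), h2 0 3 (by norm_num)⟩, h2 1 2 (by norm_num),
        h2 1 3 (by norm_num)⟩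
    · exact ⟨f 0, f 1, h3 0, h3 1, h2 0 1 (by norm_num), h⟩
  obtain ⟨d, d', hd, hd', hdd, hcard⟩ := key
  let A : BooleanSubalgebra B := sub {⊥} isIdl_bot d ⊓ sub {⊥} isIdl_bot d'
  have hAm : ∀ x, x ∈ A ↔ x ∈ sub {⊥} isIdl_bot d ∧ x ∈ sub {⊥} isIdl_bot d' := fun x => Iff.rfl
  have hdA : d ∈ A := (hAm d).2 ⟨self_mem_sub,
    mem_sub_of_le_compl (le_compl_iff_disjoint_right.2 hdd)⟩
  have hdA' : d' ∈ A := (hAm d').2 ⟨mem_sub_of_le_compl (le_compl_iff_disjoint_right.2 hdd.symm),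
    self_mem_sub⟩
  have hA : #A = κ := by
    refine mk_eq_of_subset (T := (A : Set B)) hB (fun x hx => (hAm x).2 ⟨?_, ?_⟩) hcard
    · exact mem_sub_of_le_compl (le_trans hx (compl_le_compl le_sup_left))
    · exact mem_sub_of_le_compl (le_trans hx (compl_le_compl le_sup_right))
  obtain ⟨φ⟩ := hstar A hA
  have a1 : Sc (⟨d, hdA⟩ : A) := ⟨1, not_rkGe_one_of_atom A d hdA
    (fun x hx => atom_sub rfl isIdl_bot d x ((hAm x).1 hx).1)⟩
  have a2 : Sc (⟨d', hdA'⟩ : A) := ⟨1, not_rkGe_one_of_atom A d' hdA'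
    (fun x hx => atom_sub rfl isIdl_bot d' x ((hAm x).1 hx).2)⟩
  refine ⟨φ ⟨d, hdA⟩, φ ⟨d', hdA'⟩, ?_, ?_, ?_, (sc_map_iff φ).2 a1, (sc_map_iff φ).2 a2⟩
  · intro h
    rw [map_eq_bot_iff] at h
    exact hd (congrArg Subtype.val h)
  · intro h
    rw [map_eq_bot_iff] at h
    exact hd' (congrArg Subtype.val h)
  · rw [disjoint_map_orderIso_iff, disjoint_iff]
    exact Subtype.ext (disjoint_iff.1 hdd)

/-- elements with no nonzero superatomic element below -/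
def L0 (B : Type u) [BooleanAlgebra B] : Set B := {l | ∀ x, x ≤ l → Sc x → x = ⊥}

theorem isIdl_L0 : IsIdl (L0 B) where
  bot := fun x hx _ => le_bot_iff.1 hx
  lower := fun hxy hy z hz => hy z (hz.trans hxy)
  sup := by
    intro x y hx hy z hz hs
    have h1 := hx (z ⊓ x) inf_le_right (hs.mono inf_le_left)
    have h2 := hy (z ⊓ y) inf_le_right (hs.mono inf_le_left)
    rw [← inf_eq_left.2 hz, inf_sup_left, h1, h2, sup_idem]

theorem mk_L0_lt (hκ : ℵ₀ ≤ κ) (hB : #B = κ) (hstar : Star κ B) (htop : ¬ Sc (⊤ : B)) :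
    #(L0 B) < κ := by
  refine lt_of_le_of_ne (hB ▸ Cardinal.mk_set_le _) fun h => ?_
  obtain ⟨φ⟩ := hstar _ (mk_sub_of_mk_idl hB isIdl_L0 (b := ⊤) h)
  obtain ⟨c, c', hc, hc', hd, hs, hs'⟩ := two_atoms hκ hB hstar htop
  have key : ∀ e : B, e ≠ ⊥ → Sc e → ((φ.symm e : sub (L0 B) isIdl_L0 ⊤) : B)ᶜ ∈ L0 B := by
    intro e he hse
    rcases mem_sub_top.1 (φ.symm e).2 with h1 | h1
    · exfalso
      have h2 : Sc (φ.symm e) := (sc_map_iff φ.symm).2 hse
      rw [sc_sub_iff _ _ (fun x hx => mem_sub_of_mem (isIdl_L0.lower hx h1))] at h2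
      have h3 := h1 _ le_rfl h2
      have h4 : φ.symm e = ⊥ := Subtype.ext h3
      rw [map_eq_bot_iff] at h4
      exact he h4
    · exact h1
  have k1 := key c hc hs
  have k2 := key c' hc' hs'
  have hd' : Disjoint (φ.symm c) (φ.symm c') := (disjoint_map_orderIso_iff φ.symm).2 hd
  have h5 : ((φ.symm c : sub (L0 B) isIdl_L0 ⊤) : B) ∈ L0 B := by
    refine isIdl_L0.lower ?_ k2
    rw [le_compl_iff_disjoint_right, disjoint_iff]
    exact congrArg Subtype.val (disjoint_iff.1 hd')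
  have h2 : Sc (φ.symm c) := (sc_map_iff φ.symm).2 hs
  rw [sc_sub_iff _ _ (fun x hx => mem_sub_of_mem (isIdl_L0.lower hx h5))] at h2
  have h4 : φ.symm c = ⊥ := Subtype.ext (h5 _ le_rfl h2)
  rw [map_eq_bot_iff] at h4
  exact hc h4

/-- elements with no superatomic element below of rank at least the rank of `c` -/
def Lc (c : B) : Set B := {l | ∀ x, x ≤ l → Sc x → ¬ ∀ γ, RkGe γ c → RkGe γ x}

theorem isIdl_Lc {c : B} (hc : c ≠ ⊥) : IsIdl (Lc c) where
  bot := fun x hx _ h => (h 0 (rkGe_zero hc)).ne_bot (le_bot_iff.1 hx)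
  lower := fun hxy hy z hz => hy z (hz.trans hxy)
  sup := by
    intro x y hx hy z hz hs h
    have h1 := hx (z ⊓ x) inf_le_right (hs.mono inf_le_left)
    have h2 := hy (z ⊓ y) inf_le_right (hs.mono inf_le_left)
    push Not at h1 h2
    obtain ⟨γ, g1, g2⟩ := h1
    obtain ⟨δ, d1, d2⟩ := h2
    have h3 : RkGe (max γ δ) c := by
      rcases le_total γ δ with h4 | h4
      · rwa [max_eq_right h4]
      · rwa [max_eq_left h4]
    have h5 := h _ h3
    rw [← inf_eq_left.2 hz, inf_sup_left] at h5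
    rcases h5.of_sup with h6 | h6
    · exact g2 (h6.anti (le_max_left _ _))
    · exact d2 (h6.anti (le_max_right _ _))

/-- Step B -/
theorem mk_Lc_lt (hκ : ℵ₀ ≤ κ) (hB : #B = κ) (hstar : Star κ B) (htop : ¬ Sc (⊤ : B))
    {c : B} (hc : c ≠ ⊥) (hs : Sc c) : #(Lc c) < κ := by
  by_cases h1 : RkGe 1 c
  · refine lt_of_le_of_ne (hB ▸ Cardinal.mk_set_le _) fun hL => ?_
    obtain ⟨φ⟩ := hstar _ (mk_sub_of_mk_idl hB (isIdl_Lc hc) (b := ⊤) hL)
    set c1 := φ.symm c with hc1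
    have r1 : ∀ γ, RkGe γ c1 ↔ RkGe γ c := fun γ => rkGe_map_iff φ.symm
    have s1 : Sc c1 := (sc_map_iff φ.symm).2 hs
    -- elements of the ideal lying in the subalgebra have the right ranks
    have r2 : ∀ x : sub (Lc c) (isIdl_Lc hc) ⊤, (x : B) ∈ Lc c → ∀ γ, (RkGe γ x ↔ RkGe γ (x : B)) :=
      fun x hx γ => rkGe_sub_iff _ x (fun y hy => mem_sub_of_mem ((isIdl_Lc hc).lower hy hx))
    rcases mem_sub_top.1 c1.2 with h2 | h2
    · refine h2 (c1 : B) le_rfl ?_ fun γ hγ => ?_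
      · exact (sc_sub_iff _ c1
          (fun y hy => mem_sub_of_mem ((isIdl_Lc hc).lower hy h2))).1 s1
      · exact (r2 c1 h2 γ).1 ((r1 γ).2 hγ)
    · set a : B := (c1 : B) with ha
      have hcard : #(Iic aᶜ) = κ := by
        by_contra hne
        have h3 : #(Iic aᶜ) < κ := lt_of_le_of_ne (hB ▸ Cardinal.mk_set_le _) hne
        have h4 : #{x : B | x ∈ Lc c ∧ x ≤ a} < κ := by
          refine lt_of_le_of_lt (Cardinal.mk_le_mk_of_subset fun x hx => ?_)
            (mk_sc_lt hB hstar htop)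
          have hxm : x ∈ sub (Lc c) (isIdl_Lc hc) ⊤ := mem_sub_of_mem hx.1
          have : Sc (⟨x, hxm⟩ : sub (Lc c) (isIdl_Lc hc) ⊤) := s1.mono hx.2
          exact (sc_sub_iff _ ⟨x, hxm⟩
            (fun y hy => mem_sub_of_mem ((isIdl_Lc hc).lower hy hx.1))).1 this
        have h5 := mk_le_mul a (Lc c) (isIdl_Lc hc)
        rw [hL] at h5
        exact absurd h5 (not_le.2 (Cardinal.mul_lt_of_lt hκ h4 h3))
      obtain ⟨ψ⟩ := hstar _ (mk_sub_of_mk_iic hB isIdl_bot hcard)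
      set c2 := ψ.symm c with hc2
      have t1 : ∀ γ, RkGe γ c2 ↔ RkGe γ c := fun γ => rkGe_map_iff ψ.symm
      have u1 : Sc c2 := (sc_map_iff ψ.symm).2 hs
      let a' : sub {⊥} isIdl_bot a := ⟨a, self_mem_sub⟩
      have hsplit : c2 = (c2 ⊓ a') ⊔ (c2 ⊓ a'ᶜ) := by
        rw [← inf_sup_left, sup_compl_eq_top, inf_top_eq]
      have hx2 : ((c2 ⊓ a'ᶜ : sub {⊥} isIdl_bot a) : B) ≤ aᶜ := inf_le_right
      have hx3 : ((c2 ⊓ a'ᶜ : sub {⊥} isIdl_bot a) : B) ∈ Lc c := (isIdl_Lc hc).lower hx2 h2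
      have hdown : ∀ y : B, y ≤ ((c2 ⊓ a'ᶜ : sub {⊥} isIdl_bot a) : B) → y ∈ sub {⊥} isIdl_bot a :=
        fun y hy => mem_sub_of_le_compl (hy.trans hx2)
      have hsx : Sc ((c2 ⊓ a'ᶜ : sub {⊥} isIdl_bot a) : B) :=
        (sc_sub_iff _ _ hdown).1 (u1.mono inf_le_left)
      have h6 := hx3 _ le_rfl hsx
      push Not at h6
      obtain ⟨γ, g1, g2⟩ := h6
      have h7 : RkGe (max γ 1) c := by
        rcases le_total γ 1 with h4 | h4
        · rwa [max_eq_right h4]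
        · rwa [max_eq_left h4]
      have h8 := (t1 _).2 h7
      rw [hsplit] at h8
      rcases h8.of_sup with h9 | h9
      · have h10 : RkGe 1 a' := (h9.anti (le_max_right _ _)).mono inf_le_right
        exact not_rkGe_one_of_atom _ a self_mem_sub (atom_sub rfl isIdl_bot a) h10
      · exact g2 ((rkGe_sub_iff _ _ hdown).1 (h9.anti (le_max_left _ _)))
  · refine lt_of_le_of_lt (Cardinal.mk_le_mk_of_subset fun l hl => ?_)
      (mk_L0_lt hκ hB hstar htop)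
    intro x hx hsx
    by_contra hx0
    refine hl x hx hsx fun γ hγ => ?_
    have : γ = 0 := by
      by_contra hne
      exact h1 (hγ.anti (Order.one_le_iff_pos.2 (pos_iff_ne_zero.2 hne)))
    subst this
    exact rkGe_zero hx0

/-- the join of two ideals, as a set of joins -/
def joinSet (S T : Set B) : Set B := {z | ∃ x ∈ S, ∃ y ∈ T, x ⊔ y = z}

omit [BooleanAlgebra B] in
theorem mk_mul_le_of {κ : Cardinal.{u}} (hκ : ℵ₀ ≤ κ) {a b : Cardinal.{u}} (ha : a < κ)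
    (hb : b < κ) : a * b < κ := Cardinal.mul_lt_of_lt hκ ha hb

theorem mk_joinSet_lt (hκ : ℵ₀ ≤ κ) {S T : Set B} (hS : #S < κ) (hT : #T < κ) :
    #(joinSet S T) < κ := by
  refine lt_of_le_of_lt ?_ (Cardinal.mul_lt_of_lt hκ hS hT)
  have : Function.Surjective (fun p : S × T => (⟨(p.1 : B) ⊔ p.2, p.1, p.1.2, p.2, p.2.2, rfl⟩ :
      joinSet S T)) := by
    rintro ⟨z, x, hx, y, hy, rfl⟩
    exact ⟨(⟨x, hx⟩, ⟨y, hy⟩), rfl⟩
  have := Cardinal.mk_le_of_surjective this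
  rwa [Cardinal.mk_prod, Cardinal.lift_id, Cardinal.lift_id] at this

/-- if `b` is not in the join then there are infinitely many disjoint superatomic elements below
`b` of rank at least the rank of `c` -/
theorem exists_seq {b c : B} (hb : b ∉ joinSet {b : B | Sc b} (Lc c)) :
    ∃ f : ℕ → B, (∀ n, f n ≤ b) ∧ (∀ m n, m < n → Disjoint (f m) (f n)) ∧
      ∀ n, Sc (f n) ∧ ∀ γ, RkGe γ c → RkGe γ (f n) := by
  have step : ∀ s : {s : B // Sc s ∧ s ≤ b}, ∃ x : B, x ≤ b \ s ∧ Sc x ∧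
      ∀ γ, RkGe γ c → RkGe γ x := by
    intro s
    by_contra hcon
    push Not at hcon
    apply hb
    refine ⟨s, s.2.1, b \ s, ?_, sup_sdiff_cancel_right s.2.2⟩
    intro x hx hs h
    obtain ⟨γ, h1, h2⟩ := hcon x hx hs
    exact h2 (h γ h1)
  choose g g1 g2 g3 using step
  let s : ℕ → {s : B // Sc s ∧ s ≤ b} := fun n => Nat.rec ⟨⊥, sc_bot, bot_le⟩
    (fun _ t => ⟨t.1 ⊔ g t, t.2.1.sup (g2 t), sup_le t.2.2 ((g1 t).trans sdiff_le)⟩) n
  have hs : ∀ n, (s (n + 1)).1 = (s n).1 ⊔ g (s n) := fun n => rfl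
  have hmono : Monotone (fun n => (s n).1) := by
    refine monotone_nat_of_le_succ fun n => ?_
    rw [hs]
    exact le_sup_left
  refine ⟨fun n => g (s n), fun n => (g1 _).trans sdiff_le, fun m n hmn => ?_, fun n =>
    ⟨g2 _, g3 _⟩⟩
  have h1 : g (s m) ≤ (s n).1 := by
    have := hmono (Nat.succ_le_of_lt hmn)
    refine le_trans ?_ this
    change _ ≤ (s (m + 1)).1
    rw [hs]
    exact le_sup_right
  exact (disjoint_sdiff_self_right (x := (s n).1) (y := b)).mono h1 (g1 _)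

/-- the regular case -/
theorem sc_top_of_regular (hκ : κ.IsRegular) (hB : #B = κ) (hstar : Star κ B) :
    Sc (⊤ : B) := by
  by_contra htop
  have hω : ℵ₀ ≤ κ := hκ.aleph0_le
  -- the exceptional set
  let N : Set B := ⋃ c : {c : B | Sc c}, {b | (c : B) ≠ ⊥ ∧ b ∈ joinSet {b : B | Sc b} (Lc (c : B))}
  have hN : #N < κ := by
    refine lt_of_le_of_lt Cardinal.mk_iUnion_le_sum_mk ?_
    refine Cardinal.sum_lt_of_isRegular hκ (mk_sc_lt hB hstar htop) fun c => ?_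
    by_cases hc : (c : B) = ⊥
    · have : {b | (c : B) ≠ ⊥ ∧ b ∈ joinSet {b : B | Sc b} (Lc (c : B))} = ∅ := by
        ext; simp [hc]
      rw [this, Cardinal.mk_eq_zero]
      exact hκ.pos
    · refine lt_of_le_of_lt (Cardinal.mk_le_mk_of_subset fun b hb => hb.2)
        (mk_joinSet_lt hω (mk_sc_lt hB hstar htop) (mk_Lc_lt hω hB hstar htop hc c.2))
  -- choose `b`
  have hb : ∃ b : B, b ∉ N ∧ #(Iic bᶜ) = κ := by
    by_contra hcon
    push Not at hcon
    have h1 : ∀ b : B, b ∈ N ∨ bᶜ ∈ N := by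
      intro b
      rcases mk_iic_or hω hB b with h | h
      · right
        by_contra h2
        exact hcon bᶜ h2 (by rwa [compl_compl])
      · left
        by_contra h2
        exact hcon b h2 h
    have h2 : (Set.univ : Set B) ⊆ N ∪ compl '' N := by
      intro b _
      rcases h1 b with h | h
      · exact Or.inl h
      · exact Or.inr ⟨bᶜ, h, compl_compl b⟩
    have h3 := (Cardinal.mk_le_mk_of_subset h2).trans (Cardinal.mk_union_le _ _)
    rw [Cardinal.mk_univ, hB] at h3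
    exact absurd h3 (not_le.2 (Cardinal.add_lt_of_lt hω hN
      (lt_of_le_of_lt Cardinal.mk_image_le hN)))
  obtain ⟨b, hbN, hcard⟩ := hb
  obtain ⟨φ⟩ := hstar _ (mk_sub_of_mk_iic hB isIdl_sc hcard)
  let b' : sub {b : B | Sc b} isIdl_sc b := ⟨b, self_mem_sub⟩
  have hsb : Sc b' := sc_self_sub b self_mem_sub
  have hsc : Sc (φ b') := (sc_map_iff φ).2 hsb
  have hb0 : b ≠ ⊥ := by
    -- otherwise `b` lies in `N` because `B` has a nonzero superatomic element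
    obtain ⟨c, c', hc, -, -, hs, -⟩ := two_atoms hω hB hstar htop
    rintro rfl
    apply hbN
    refine Set.mem_iUnion.2 ⟨⟨c, hs⟩, hc, ⊥, sc_bot, ⊥, (isIdl_Lc hc).bot, sup_idem ⊥⟩
  have hc0 : φ b' ≠ ⊥ := by
    intro h
    rw [map_eq_bot_iff] at h
    exact hb0 (congrArg Subtype.val h)
  have hbc : b ∉ joinSet {b : B | Sc b} (Lc (φ b')) := by
    intro h
    exact hbN (Set.mem_iUnion.2 ⟨⟨φ b', hsc⟩, hc0, h⟩)
  obtain ⟨f, f1, f2, f3⟩ := exists_seq hbc
  have hfm : ∀ n, f n ∈ sub {b : B | Sc b} isIdl_sc b := fun n => mem_sub_of_mem (f3 n).1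
  have hstep : ∀ γ : Ordinal.{u}, RkGe γ b' → RkGe (Order.succ γ) b' := by
    intro γ hγ
    refine rkGe_succ (fun n => ⟨f n, hfm n⟩) (fun n => f1 n) (fun m n hmn => ?_) (fun n => ?_)
    · rw [disjoint_iff]
      exact Subtype.ext (disjoint_iff.1 (f2 m n hmn))
    · refine (rkGe_sub_iff _ (⟨f n, hfm n⟩ : sub {b : B | Sc b} isIdl_sc b)
        (fun x hx => mem_sub_of_mem (Sc.mono hx (f3 n).1))).2 ?_
      exact (f3 n).2 γ ((rkGe_map_iff φ).2 hγ)
  obtain ⟨γ, hγ⟩ := hsb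
  refine hγ (rkGe_of_step ?_ hstep γ)
  intro h
  exact hb0 (congrArg Subtype.val h)

/-- a dense set bounds the size -/
theorem mk_le_of_dense (M : Set B) (hM : ∀ b : B, b ≠ ⊥ → ∃ m ∈ M, m ≠ ⊥ ∧ m ≤ b) :
    #B ≤ 2 ^ #M := by
  have hinj : Function.Injective (fun b : B => {m : M | (m : B) ≤ b}) := by
    have key : ∀ b b' : B, {m : M | (m : B) ≤ b} = {m : M | (m : B) ≤ b'} → b ≤ b' := by
      intro b b' h
      rw [← sdiff_eq_bot_iff]
      by_contra h0
      obtain ⟨m, hm, hm0, hmb⟩ := hM _ h0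
      have h1 : (⟨m, hm⟩ : M) ∈ {m : M | (m : B) ≤ b'} := h ▸ (hmb.trans sdiff_le)
      have h2 : m ≤ b' := h1
      have h3 : Disjoint m b' := (disjoint_sdiff_self_left).mono_left hmb
      exact hm0 (h3.eq_bot_of_le h2)
    intro b b' h
    exact le_antisymm (key b b' h) (key b' b h.symm)
  have := Cardinal.mk_le_of_injective hinj
  rwa [Cardinal.mk_set] at this

/-- the strong limit case -/
theorem sc_top_of_strongLimit (hω : ℵ₀ ≤ κ) (hκ : ∀ μ < κ, 2 ^ μ < κ) (hB : #B = κ)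
    (hstar : Star κ B) : Sc (⊤ : B) := by
  by_contra htop
  have h1 := mk_le_of_dense ({b : B | Sc b} ∪ L0 B) (fun b hb => by
    by_cases h : b ∈ L0 B
    · exact ⟨b, Or.inr h, hb, le_rfl⟩
    · simp only [L0, Set.mem_ofPred_eq, not_forall] at h
      obtain ⟨x, hx, hs, h0⟩ := h
      exact ⟨x, Or.inl hs, h0, hx⟩)
  rw [hB] at h1
  refine absurd h1 (not_le.2 (hκ _ ?_))
  exact lt_of_le_of_lt (Cardinal.mk_union_le _ _) (Cardinal.add_lt_of_lt hω
    (mk_sc_lt hB hstar htop) (mk_L0_lt hω hB hstar htop))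

end Main

section Super

variable {B : Type u} [BooleanAlgebra B]

/-- if `⊤` has a rank then every homomorphic image is atomic -/
theorem isAtomic_of_sc_top (h : Sc (⊤ : B)) {C : Type u} [BooleanAlgebra C]
    (f : BoundedLatticeHom B C) (hf : Function.Surjective f) : IsAtomic C := by
  constructor
  intro q
  by_contra hcon
  push Not at hcon
  obtain ⟨hq, hat⟩ := hcon
  -- an element of minimal rank whose image is below `q` and nonzero
  have hall : ∀ b : B, Sc b := fun b => h.mono le_top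
  let P : Ordinal.{u} → Prop := fun γ => ∃ b : B, f b ≠ ⊥ ∧ f b ≤ q ∧ ¬ RkGe γ b
  have hP : ∃ γ, P γ := by
    obtain ⟨b, hb⟩ := hf q
    obtain ⟨γ, hγ⟩ := hall b
    exact ⟨γ, b, hb ▸ hq, hb.le, hγ⟩
  obtain ⟨γ, ⟨b, hb0, hbq, hγ⟩, hmin⟩ : ∃ γ, P γ ∧ ∀ δ < γ, ¬ P δ :=
    ⟨sInf {γ | P γ}, csInf_mem (s := {γ | P γ}) hP, fun δ hδ hPδ =>
      absurd (csInf_le' (s := {γ | P γ}) hPδ) (not_le.2 hδ)⟩
  -- below `b` we can split infinitely often
  have hsplit : ∀ x : {x : B // x ≤ b ∧ f x ≠ ⊥}, ∃ y : B, y ≤ x.1 ∧ f y ≠ ⊥ ∧ f (x.1 \ y) ≠ ⊥ := by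
    rintro ⟨x, hx, hx0⟩
    have h1 : ¬ IsAtom (f x) := fun h => hat (f x) h ((OrderHomClass.mono f hx).trans hbq)
    have h2 : ∃ z, z < f x ∧ z ≠ ⊥ := by
      by_contra h3
      push Not at h3
      exact h1 ⟨hx0, fun z hz => h3 z hz⟩
    obtain ⟨z, hz, hz0⟩ := h2
    obtain ⟨y, hy⟩ := hf z
    have h4 : f (x ⊓ y) = z := by rw [map_inf, hy, inf_eq_right.2 hz.le]
    refine ⟨x ⊓ y, inf_le_left, h4 ▸ hz0, ?_⟩
    intro h5
    rw [map_sdiff', h4, sdiff_eq_bot_iff] at h5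
    exact absurd h5 hz.not_ge
  choose g g1 g2 g3 using hsplit
  let s : ℕ → {x : B // x ≤ b ∧ f x ≠ ⊥} := fun n => Nat.rec ⟨b, le_rfl, hb0⟩
    (fun _ t => ⟨t.1 \ g t, sdiff_le.trans t.2.1, g3 t⟩) n
  have hs : ∀ n, (s (n + 1)).1 = (s n).1 \ g (s n) := fun n => rfl
  have hanti : Antitone (fun n => (s n).1) := by
    refine antitone_nat_of_succ_le fun n => ?_
    rw [hs]
    exact sdiff_le
  apply hγ
  rw [rkGe_iff]
  refine ⟨fun h0 => hb0 (by rw [h0, map_bot]), fun δ hδ => ⟨fun n => g (s n),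
    fun n => (g1 _).trans (s n).2.1, fun m n hmn => ?_, fun n => ?_⟩⟩
  · have h1 : g (s n) ≤ (s m).1 \ g (s m) := by
      refine (g1 _).trans ?_
      have := hanti (Nat.succ_le_of_lt hmn)
      rw [← hs]
      exact this
    exact (disjoint_sdiff_self_right (x := g (s m)) (y := (s m).1)).mono_right h1
  · by_contra h1
    exact hmin δ hδ ⟨g (s n), g2 _, (OrderHomClass.mono f ((g1 _).trans (s n).2.1)).trans hbq, h1⟩

end Super

end Pool.Agent.Helper372.SuperAt
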